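import Pool.Agent.Lib.SmL.Sys
import Pool.Agent.Lib.SmL.I.Uni

/-!
# SMITH-L, block H, H9: the cup product of two families of cochains

For `U, U' : Uni l ι G V1` with the same characters `dl i`
`cc e U U' (s, t) = ∑_T (-1)^|T| e (U_T(s), U'_(Tᶜ)(s t) - U'_(Tᶜ)(s))`
is a 2-cocycle of `G` with values in `ZMod l` (`Uni.cc_coc`); it is the cup product of the cocycles
`∑ ε_T U_T`, `∑ ε_T U'_T` with values in `V1 ⊗ ZMod l [ε_i] / (ε_i²)`.
-/

set_option autoImplicit false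

open Finset

namespace Pool.Agent.SmL

section comb

variable {l : ℕ} {ι B : Type*} [DecidableEq ι] [Fintype ι] [AddCommGroup B] [Module (ZMod l) B]

private theorem reind1 {M : Type*} [AddCommMonoid M]
    (F : Finset ι → Finset ι → Finset ι → M) :
    ∑ T : Finset ι, ∑ W ∈ T.powerset, ∑ W' ∈ (Tᶜ).powerset, F (T \ W) W W' =
      ∑ T : Finset ι, ∑ W ∈ (Tᶜ).powerset, ∑ W' ∈ (Tᶜ \ W).powerset, F T W W' := by
  simp_rw [Finset.sum_sigma']
  refine sum_nbij' (fun x => ⟨x.1 \ x.2.1, x.2.1, x.2.2⟩) (fun x => ⟨x.1 ∪ x.2.1, x.2.1, x.2.2⟩)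
    ?_ ?_ ?_ ?_ ?_
  · rintro ⟨T, W, W'⟩ h
    simp only [mem_sigma, mem_univ, mem_powerset, true_and] at h ⊢
    obtain ⟨h1, h2⟩ := h
    refine ⟨fun x hx => ?_, fun x hx => ?_⟩
    · simp [hx]
    · have h3 := h2 hx
      simp only [mem_compl] at h3
      simp only [mem_sdiff, mem_compl]
      exact ⟨fun h4 => h3 h4.1, fun h4 => h3 (h1 h4)⟩
  · rintro ⟨T, W, W'⟩ h
    simp only [mem_sigma, mem_univ, mem_powerset, true_and] at h ⊢
    obtain ⟨h1, h2⟩ := h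
    refine ⟨subset_union_right, fun x hx => ?_⟩
    have h3 := h2 hx
    simp only [mem_sdiff, mem_compl] at h3
    simp only [mem_compl, mem_union]
    tauto
  · rintro ⟨T, W, W'⟩ h
    simp only [mem_sigma, mem_univ, mem_powerset, true_and] at h
    obtain ⟨h1, h2⟩ := h
    simp only [Finset.sdiff_union_of_subset h1]
  · rintro ⟨T, W, W'⟩ h
    simp only [mem_sigma, mem_univ, mem_powerset, true_and] at h
    obtain ⟨h1, h2⟩ := h
    have h3 : (T ∪ W) \ W = T := by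
      ext x
      simp only [mem_sdiff, mem_union]
      constructor
      · rintro ⟨h4 | h4, h5⟩
        · exact h4
        · exact absurd h4 h5
      · intro h4
        exact ⟨Or.inl h4, fun h5 => (mem_compl.1 (h1 h5)) h4⟩
    simp only [h3]
  · rintro ⟨T, W, W'⟩ _
    rfl

omit [Fintype ι] in
private theorem reind2 {M : Type*} [AddCommMonoid M] (C : Finset ι)
    (F : Finset ι → Finset ι → M) :
    ∑ W ∈ C.powerset, ∑ W' ∈ (C \ W).powerset, F W (W ∪ W') =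
      ∑ D ∈ C.powerset, ∑ W ∈ D.powerset, F W D := by
  simp_rw [Finset.sum_sigma']
  refine sum_nbij' (fun x => ⟨x.1 ∪ x.2, x.1⟩) (fun x => ⟨x.2, x.1 \ x.2⟩)
    ?_ ?_ ?_ ?_ ?_
  · rintro ⟨W, W'⟩ h
    simp only [mem_sigma, mem_powerset] at h ⊢
    exact ⟨union_subset h.1 (h.2.trans sdiff_subset), subset_union_left⟩
  · rintro ⟨D, W⟩ h
    simp only [mem_sigma, mem_powerset] at h ⊢
    exact ⟨h.2.trans h.1, sdiff_subset_sdiff h.1 (subset_refl W)⟩
  · rintro ⟨W, W'⟩ h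
    simp only [mem_sigma, mem_powerset] at h
    have h3 : (W ∪ W') \ W = W' := by
      ext x
      simp only [mem_sdiff, mem_union]
      constructor
      · rintro ⟨h4 | h4, h5⟩
        · exact absurd h4 h5
        · exact h4
      · intro h4
        exact ⟨Or.inr h4, (mem_sdiff.1 (h.2 h4)).2⟩
    simp only [h3]
  · rintro ⟨D, W⟩ h
    simp only [mem_sigma, mem_powerset] at h
    simp only [union_sdiff_of_subset h.2]
  · rintro ⟨W, W'⟩ _
    rfl

/-- The pairing `∑_T (-1)^|T| e (a_T, b_(Tᶜ))` is invariant under the multiplication with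
`∏ (1 + d_i ε_i)` of both arguments. -/
theorem pair_mul (e : B →ₗ[ZMod l] B →ₗ[ZMod l] ZMod l) (d : ι → ZMod l) (a b : Finset ι → B) :
    ∑ T : Finset ι, (-1 : ZMod l) ^ T.card * e (∑ W ∈ T.powerset, (∏ i ∈ W, d i) • a (T \ W))
        (∑ W ∈ (Tᶜ).powerset, (∏ i ∈ W, d i) • b (Tᶜ \ W)) =
      ∑ T : Finset ι, (-1 : ZMod l) ^ T.card * e (a T) (b Tᶜ) := by
  have h1 : ∀ T : Finset ι, (-1 : ZMod l) ^ T.card *
      e (∑ W ∈ T.powerset, (∏ i ∈ W, d i) • a (T \ W))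
        (∑ W ∈ (Tᶜ).powerset, (∏ i ∈ W, d i) • b (Tᶜ \ W)) =
      ∑ W ∈ T.powerset, ∑ W' ∈ (Tᶜ).powerset,
        (-1 : ZMod l) ^ ((T \ W) ∪ W).card * ((∏ i ∈ W, d i) * (∏ i ∈ W', d i)) *
          e (a (T \ W)) (b (((T \ W) ∪ W)ᶜ \ W')) := by
    intro T
    simp only [map_sum, LinearMap.sum_apply, mul_sum]
    rw [sum_comm]
    refine sum_congr rfl fun W hW => ?_
    refine sum_congr rfl fun W' _ => ?_
    rw [sdiff_union_of_subset (mem_powerset.1 hW), map_smul, map_smul, LinearMap.smul_apply,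
      smul_eq_mul, smul_eq_mul]
    ring
  rw [sum_congr rfl fun T _ => h1 T, reind1 (fun T W W' =>
    (-1 : ZMod l) ^ (T ∪ W).card * ((∏ i ∈ W, d i) * (∏ i ∈ W', d i)) *
          e (a T) (b ((T ∪ W)ᶜ \ W')))]
  refine sum_congr rfl fun T _ => ?_
  have h2 : ∀ W ∈ (Tᶜ).powerset, ∀ W' ∈ (Tᶜ \ W).powerset,
      (-1 : ZMod l) ^ (T ∪ W).card * ((∏ i ∈ W, d i) * (∏ i ∈ W', d i)) *
          e (a T) (b ((T ∪ W)ᶜ \ W')) =
      (-1 : ZMod l) ^ T.card * (-1 : ZMod l) ^ W.card * (∏ i ∈ W ∪ W', d i) *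
        e (a T) (b (Tᶜ \ (W ∪ W'))) := by
    intro W hW W' hW'
    rw [mem_powerset] at hW hW'
    have d1 : Disjoint T W := disjoint_right.2 fun x hx => mem_compl.1 (hW hx)
    have d2 : Disjoint W W' := disjoint_right.2 fun x hx => (mem_sdiff.1 (hW' hx)).2
    rw [card_union_of_disjoint d1, prod_union d2, pow_add]
    have e3 : (T ∪ W)ᶜ \ W' = Tᶜ \ (W ∪ W') := by
      ext x
      simp only [mem_sdiff, mem_compl, mem_union]
      tauto
    rw [e3]
  rw [sum_congr rfl fun W hW => sum_congr rfl fun W' hW' => h2 W hW W' hW',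
    reind2 (Tᶜ) (fun W D => (-1 : ZMod l) ^ T.card * (-1 : ZMod l) ^ W.card *
      (∏ i ∈ D, d i) * e (a T) (b (Tᶜ \ D)))]
  rw [sum_eq_single ∅]
  · simp
  · intro D _ hD
    have h3 : ∀ W ∈ D.powerset, (-1 : ZMod l) ^ T.card * (-1 : ZMod l) ^ W.card *
        (∏ i ∈ D, d i) * e (a T) (b (Tᶜ \ D)) =
        (-1 : ZMod l) ^ W.card * ((-1 : ZMod l) ^ T.card * (∏ i ∈ D, d i) *
          e (a T) (b (Tᶜ \ D))) := fun W _ => by ring
    rw [sum_congr rfl h3, ← sum_mul]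
    have h4 : ∑ W ∈ D.powerset, (-1 : ZMod l) ^ W.card = 0 := by
      have h5 := Finset.sum_powerset_neg_one_pow_card_of_nonempty
        (nonempty_iff_ne_empty.2 hD)
      have h6 := congrArg (Int.cast : ℤ → ZMod l) h5
      push_cast at h6
      exact h6
    rw [h4, zero_mul]
  · intro hh
    exact absurd (empty_mem_powerset _) hh

end comb

namespace Uni

variable {l : ℕ} {ι G B : Type*} [DecidableEq ι] [Fintype ι] [Group G] [AddCommGroup B]
  [Module (ZMod l) B]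

/-- The cup product of two families of cochains. -/
def cc (e : B →ₗ[ZMod l] B →ₗ[ZMod l] ZMod l) (U U' : Uni l ι G B) (s t : G) : ZMod l :=
  ∑ T : Finset ι, (-1 : ZMod l) ^ T.card *
    e (U.Phi T s) (U'.Phi Tᶜ (s * t) - U'.Phi Tᶜ s)

variable {e : B →ₗ[ZMod l] B →ₗ[ZMod l] ZMod l} {U U' : Uni l ι G B}
  {ac : G →* (B ≃ₗ[ZMod l] B)}

/-- H9.1: `cc` is a 2-cocycle. -/
theorem cc_coc (he : ∀ s w w', e (ac s w) (ac s w') = e w w') (h : IsA ac U) (h' : IsA ac U')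
    (hd : ∀ i s, U.dl i s = U'.dl i s) (s t w : G) :
    U.cc e U' s t + U.cc e U' (s * t) w = U.cc e U' t w + U.cc e U' s (t * w) := by
  have key : U.cc e U' t w = ∑ T : Finset ι, (-1 : ZMod l) ^ T.card *
      e (U.Phi T (s * t) - U.Phi T s) (U'.Phi Tᶜ (s * (t * w)) - U'.Phi Tᶜ (s * t)) := by
    unfold cc
    rw [← pair_mul e (fun i => U.dl i s) (fun T => U.Phi T t)
      (fun T => U'.Phi T (t * w) - U'.Phi T t)]
    refine sum_congr rfl fun T _ => ?_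
    congr 1
    have h1 : U.Phi T (s * t) - U.Phi T s =
        ac s (∑ W ∈ T.powerset, (∏ i ∈ W, U.dl i s) • U.Phi (T \ W) t) := by
      rw [h.coc T s t, add_sub_cancel_left, map_sum]
      exact sum_congr rfl fun W _ => (map_smul _ _ _).symm
    have h2 : U'.Phi Tᶜ (s * (t * w)) - U'.Phi Tᶜ (s * t) =
        ac s (∑ W ∈ (Tᶜ).powerset, (∏ i ∈ W, U.dl i s) •
          (U'.Phi (Tᶜ \ W) (t * w) - U'.Phi (Tᶜ \ W) t)) := by
      rw [h'.coc Tᶜ s (t * w), h'.coc Tᶜ s t, add_sub_add_left_eq_sub, ← sum_sub_distrib,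
        map_sum]
      refine sum_congr rfl fun W _ => ?_
      rw [map_smul, map_sub, smul_sub]
      simp only [hd]
    rw [h1, h2, he]
  rw [key]
  unfold cc
  rw [← sum_add_distrib, ← sum_add_distrib]
  refine sum_congr rfl fun T _ => ?_
  rw [← mul_assoc s t w]
  simp only [map_sub, LinearMap.sub_apply]
  ring

/-- The value on products when the characters vanish at the left factor. -/
theorem cc_of_dl_zero (h' : IsA ac U') {s : G} (hs : ∀ i, U'.dl i s = 0) (t : G) :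
    U.cc e U' s t = ∑ T : Finset ι, (-1 : ZMod l) ^ T.card *
      e (U.Phi T s) (ac s (U'.Phi Tᶜ t)) := by
  unfold cc
  refine sum_congr rfl fun T _ => ?_
  rw [h'.mulK hs, add_sub_cancel_left]

/-- H9.2 (ii): a place of a direction. -/
theorem cc_zero (h' : IsA ac U') {i : ι} {s t : G}
    (hs : ∀ m, m ≠ i → U'.dl m s = 0) (hU : ∀ T, i ∉ T → U.Phi T s = 0)
    (hU' : ∀ T, i ∉ T → U'.Phi T t = 0) : U.cc e U' s t = 0 := by
  unfold cc
  refine sum_eq_zero fun T _ => ?_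
  by_cases hi : i ∈ T
  · have h1 : U'.Phi Tᶜ (s * t) - U'.Phi Tᶜ s = 0 := by
      rw [h'.coc, add_sub_cancel_left]
      refine sum_eq_zero fun W hW => ?_
      rcases eq_empty_or_nonempty W with rfl | ⟨m, hm⟩
      · rw [sdiff_empty, hU' _ (by simpa using hi), map_zero, smul_zero]
      · have hmi : m ≠ i := by
          rintro rfl
          exact (mem_compl.1 (mem_powerset.1 hW hm)) hi
        rw [prod_eq_zero hm (hs m hmi), zero_smul]
    rw [h1, map_zero, mul_zero]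
  · rw [hU T hi, map_zero, LinearMap.zero_apply, mul_zero]

end Uni

section sys

variable {l : ℕ} {A G V V1 Pl : Type*} [CommRing A] [Group G] [AddCommGroup V] [Module A V]
  [DistribMulAction G V] [AddCommGroup V1] [Module (ZMod l) V1]
variable {S : Sys l A G V V1 Pl} {ι : Type*} [DecidableEq ι] [Fintype ι] {U U' : Uni l ι G V1}

/-- The action on `V1` is finite. -/
theorem ac_fin' (hS : S.Ok) : ∃ N ∈ S.NN, ∀ s ∈ N, S.ac s = 1 := by
  obtain ⟨N, hN, h1⟩ := hS.act_fin 1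
  refine ⟨N, hN, fun s hs => LinearEquiv.ext fun w => hS.iota_inj ?_⟩
  rw [← hS.iota_ac, h1 s hs _ (by rw [pow_one, hS.lam_iota])]
  rfl

/-- All the functions of a family are finite for a common `N`. -/
def Uni.TFU (S : Sys l A G V V1 Pl) (U : Uni l ι G V1) : Prop :=
  ∃ N ∈ S.NN, ∀ T, ∀ s, ∀ n ∈ N, U.Phi T (s * n) = U.Phi T s

/-- H9.1: `cc` is a 2-cocycle in the sense of `Sys`. -/
theorem Uni.cc_coc2 (hS : S.Ok) (h : Uni.IsA S.ac U) (h' : Uni.IsA S.ac U')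
    (hd : ∀ i s, U.dl i s = U'.dl i s) (hf : U.TFU S) (hf' : U'.TFU S) :
    S.Coc2 (U.cc S.e U') := by
  refine ⟨?_, Uni.cc_coc hS.e_inv h h' hd⟩
  obtain ⟨N, hN, h1⟩ := hf
  obtain ⟨N', hN', h2⟩ := hf'
  refine ⟨N ⊓ N', hS.inf_mem N hN N' hN', fun s t n hn m hm => ?_⟩
  have hnor := hS.normal N' hN'
  unfold Uni.cc
  refine sum_congr rfl fun T _ => ?_
  have e1 : s * n * (t * m) = s * t * (t⁻¹ * n * t⁻¹⁻¹ * m) := by group
  rw [h1 T s n hn.1, h2 _ s n hn.2, e1,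
    h2 _ (s * t) _ (N'.mul_mem (hnor.conj_mem n hn.2 t⁻¹) hm.2)]

/-- H9.2 (i): the invariant at a place where all the characters vanish. -/
theorem Uni.inv_cc_triv (hS : S.Ok) (h : Uni.IsA S.ac U) (h' : Uni.IsA S.ac U')
    (hd : ∀ i s, U.dl i s = U'.dl i s) (hf : U.TFU S) (hf' : U'.TFU S) {v : Pl}
    (hv : ∀ i, ∀ s ∈ S.D v, U.dl i s = 0) :
    S.inv v (U.cc S.e U') = ∑ T : Finset ι, (-1 : ZMod l) ^ T.card *
      S.sy v (S.loc v (U.Phi T)) (S.loc v (U'.Phi Tᶜ)) := by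
  obtain ⟨N, hN, h1⟩ := hf
  obtain ⟨N', hN', h2⟩ := hf'
  have hc : ∀ T, S.CocV v (U.Phi T) := fun T =>
    ⟨⟨N, hN, fun s _ n hn _ => h1 T s n hn⟩, fun s hs t _ => h.mulK (fun i => hv i s hs) T t⟩
  have hc' : ∀ T, S.CocV v (U'.Phi T) := fun T =>
    ⟨⟨N', hN', fun s _ n hn _ => h2 T s n hn⟩, fun s hs t _ =>
      h'.mulK (fun i => (hd i s).symm.trans (hv i s hs)) T t⟩
  -- a cup product on `D v` is a 2-cocycle
  have hcup : ∀ (x y : G → V1), S.CocV v x → S.CocV v y → ∀ a : ZMod l,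
      S.Coc2On v (fun s t => a * S.e (x s) (S.ac s (y t))) := by
    rintro x y ⟨⟨Nx, hNx, hx1⟩, hx2⟩ ⟨⟨Ny, hNy, hy1⟩, hy2⟩ a
    obtain ⟨N0, hN0, h0⟩ := ac_fin' hS
    refine ⟨⟨Nx ⊓ (Ny ⊓ N0), hS.inf_mem _ hNx _ (hS.inf_mem _ hNy _ hN0),
      fun s hs t ht n hn hnD m hm hmD => ?_⟩, fun s hs t ht w hw => ?_⟩
    · have e1 : S.ac (s * n) = S.ac s := by rw [map_mul, h0 n hn.2.2, mul_one]
      beta_reduce
      rw [hx1 s hs n hn.1 hnD, hy1 t ht m hm.2.1 hmD, e1]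
    · beta_reduce
      rw [hx2 s hs t ht, hy2 t ht w hw]
      simp only [map_add, LinearMap.add_apply, map_mul, LinearEquiv.mul_apply, hS.e_inv]
      ring
  have hsc : ∀ (x y : G → V1), S.CocV v x → S.CocV v y → ∀ a : ZMod l,
      S.inv v (fun s t => a * S.e (x s) (S.ac s (y t))) = a * S.sy v (S.loc v x) (S.loc v y) := by
    intro x y hx hy a
    have hax : S.CocV v (fun s => a • x s) := by
      obtain ⟨⟨Nx, hNx, hx1⟩, hx2⟩ := hx
      exact ⟨⟨Nx, hNx, fun s hs n hn hnD => by beta_reduce; rw [hx1 s hs n hn hnD]⟩,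
        fun s hs t ht => by beta_reduce; rw [hx2 s hs t ht, smul_add, map_smul]⟩
    have e1 := hS.inv_sy v (fun s => a • x s) y hax hy
    have e2 : S.loc v (fun s => a • x s) = a • S.loc v x := rfl
    rw [e2, map_smul, LinearMap.smul_apply, smul_eq_mul] at e1
    rw [← e1]
    congr 1
    funext s t
    rw [map_smul, LinearMap.smul_apply, smul_eq_mul]
  have hsum : ∀ E : Finset (Finset ι), S.Coc2On v (fun s t => ∑ T ∈ E, (-1 : ZMod l) ^ T.card *
      S.e (U.Phi T s) (S.ac s (U'.Phi Tᶜ t))) ∧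
      S.inv v (fun s t => ∑ T ∈ E, (-1 : ZMod l) ^ T.card *
      S.e (U.Phi T s) (S.ac s (U'.Phi Tᶜ t))) = ∑ T ∈ E, (-1 : ZMod l) ^ T.card *
      S.sy v (S.loc v (U.Phi T)) (S.loc v (U'.Phi Tᶜ)) := by
    intro E
    induction E using Finset.induction_on with
    | empty =>
      have h3 : S.CocV v (fun _ => (0 : V1)) :=
        ⟨⟨⊤, hS.top_mem, fun _ _ _ _ _ => rfl⟩, fun s _ t _ => by simp⟩
      have h4 := hcup _ _ h3 h3 0
      have h5 := hsc _ _ h3 h3 0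
      simp only [sum_empty]
      simp only [zero_mul] at h4 h5
      exact ⟨h4, h5⟩
    | insert T E hT ih =>
      simp only [sum_insert hT]
      have h4 := hcup _ _ (hc T) (hc' Tᶜ) ((-1 : ZMod l) ^ T.card)
      refine ⟨⟨?_, fun s hs t ht w hw => ?_⟩, ?_⟩
      · obtain ⟨N1, hN1, h5⟩ := h4.1
        obtain ⟨N2, hN2, h6⟩ := ih.1.1
        refine ⟨N1 ⊓ N2, hS.inf_mem _ hN1 _ hN2, fun s hs t ht n hn hnD m hm hmD => ?_⟩
        have h7 := h5 s hs t ht n hn.1 hnD m hm.1 hmD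
        have h8 := h6 s hs t ht n hn.2 hnD m hm.2 hmD
        beta_reduce at h7 h8 ⊢
        rw [h7, h8]
      · have h5 := h4.2 s hs t ht w hw
        have h6 := ih.1.2 s hs t ht w hw
        beta_reduce at h5 h6
        linear_combination h5 + h6
      · rw [hS.inv_add v _ _ h4 ih.1, ih.2, hsc _ _ (hc T) (hc' Tᶜ)]
  rw [← (hsum univ).2]
  refine hS.inv_congr v _ _ fun s hs t _ => ?_
  exact Uni.cc_of_dl_zero h' (fun i => (hd i s).symm.trans (hv i s hs)) t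

/-- H9.2 (ii): the invariant at a place of the direction `i`. -/
theorem Uni.inv_cc_dir (hS : S.Ok) (h' : Uni.IsA S.ac U') {v : Pl} {i : ι}
    (hv : ∀ m, m ≠ i → ∀ s ∈ S.D v, U'.dl m s = 0)
    (hU : ∀ T, i ∉ T → ∀ s ∈ S.D v, U.Phi T s = 0)
    (hU' : ∀ T, i ∉ T → ∀ s ∈ S.D v, U'.Phi T s = 0) : S.inv v (U.cc S.e U') = 0 := by
  have h1 : S.inv v (U.cc S.e U') = S.inv v (fun s t => (fun _ : G => (0 : ZMod l)) s +
      (fun _ : G => (0 : ZMod l)) t - (fun _ : G => (0 : ZMod l)) (s * t)) := by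
    refine hS.inv_congr v _ _ fun s hs t ht => ?_
    rw [Uni.cc_zero h' (i := i) (fun m hm => hv m hm s hs) (fun T hT => hU T hT s hs)
      (fun T hT => hU' T hT t ht)]
    simp
  rw [h1]
  exact hS.inv_cob v _ ⟨⊤, hS.top_mem, fun _ _ _ _ _ => rfl⟩

/-- H9.2 (iii): the invariant at an unramified place. -/
theorem Uni.inv_cc_unr (hS : S.Ok) (h : Uni.IsA S.ac U) (h' : Uni.IsA S.ac U')
    (hd : ∀ i s, U.dl i s = U'.dl i s) (hf : U.TFU S) (hf' : U'.TFU S) {v : Pl}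
    (hv : v ∈ S.good) (hdl : ∀ i, U.dl i (S.sg v) = 0) (hU : ∀ T, U.Phi T (S.sg v) = 0)
    (hU' : ∀ T, U'.Phi T (S.sg v) = 0) : S.inv v (U.cc S.e U') = 0 := by
  have hac : S.ac (S.sg v) = 1 := by
    apply LinearEquiv.ext
    intro w
    apply hS.iota_inj
    rw [← hS.iota_ac, hS.good_triv v hv]
    rfl
  have hdl' : ∀ i, U'.dl i (S.sg v) = 0 := fun i => (hd i _).symm.trans (hdl i)
  obtain ⟨⟨N, hN, h1⟩, h2⟩ := Uni.cc_coc2 hS h h' hd hf hf'
  refine hS.inv_unr v hv _ ⟨⟨N, hN, fun s _ t _ n hn _ m hm _ => h1 s t n hn m hm⟩,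
    fun s _ t _ w _ => h2 s t w⟩ fun s _ t _ => ⟨?_, ?_, ?_, ?_⟩
  · unfold Uni.cc
    refine sum_congr rfl fun T _ => ?_
    have e1 : U'.Phi Tᶜ (s * S.sg v * t) = U'.Phi Tᶜ (s * t) := by
      rw [mul_assoc, h'.coc Tᶜ s (S.sg v * t), h'.coc Tᶜ s t]
      congr 1
      refine sum_congr rfl fun W _ => ?_
      rw [h'.mul_zero_left hac hdl' hU']
    rw [h.mul_zero_right hU, h'.mul_zero_right hU', e1]
  · unfold Uni.cc
    refine sum_congr rfl fun T _ => ?_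
    rw [mul_assoc, h.mul_zero_left hac hdl hU, h'.mul_zero_left hac hdl' hU',
      h'.mul_zero_left hac hdl' hU']
  · unfold Uni.cc
    refine sum_congr rfl fun T _ => ?_
    rw [← mul_assoc, h'.mul_zero_right hU']
  · unfold Uni.cc
    refine sum_congr rfl fun T _ => ?_
    have e1 : U'.Phi Tᶜ (s * (S.sg v * t)) = U'.Phi Tᶜ (s * t) := by
      rw [h'.coc Tᶜ s (S.sg v * t), h'.coc Tᶜ s t]
      congr 1
      refine sum_congr rfl fun W _ => ?_
      rw [h'.mul_zero_left hac hdl' hU']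
    rw [e1]

end sys

end Pool.Agent.SmL
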