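import Pool.Agent.Lib.SmL.H.Defs

/-!
# SMITH-L, block H, H2: the relation of the cochain `Th` of a face with `j + 1` directions
-/

set_option autoImplicit false

open Finset

namespace Pool.Agent.SmL

section

variable {l : ℕ} {A G V V1 Pl I : Type*} [CommRing A] [Group G] [AddCommGroup V] [Module A V]
  [DistribMulAction G V] [AddCommGroup V1] [Module (ZMod l) V1] [DecidableEq I]

/-- The relation of `Th : G → V1` for the face with directions `W`, `|W| = j + 1`. -/
def ThRel (S : Sys l A G V V1 Pl) (j : ℕ) (del : I → G → ZMod l) (Psi : Finset I → G → V)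
    (W : Finset I) (Th : G → V1) : Prop :=
  ∀ s t, Th (s * t) = Th s + S.ac s (Th t +
    ∑ T ∈ W.powerset.erase ∅, pdel del T s • PhiC S j Psi (W \ T) t)

variable {S : Sys l A G V V1 Pl}

/-- Two solutions of the relation differ by a cocycle. -/
theorem ThRel.sub_coc {W : Finset I} {j : ℕ} {del : I → G → ZMod l}
    {Psi : Finset I → G → V} {Th Th' : G → V1} (h : ThRel S j del Psi W Th)
    (h' : ThRel S j del Psi W Th') (s t : G) :
    Th (s * t) - Th' (s * t) = (Th s - Th' s) + S.ac s (Th t - Th' t) := by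
  rw [h s t, h' s t, map_add, map_add, map_sub]; abel

/-- Adding a cocycle. -/
theorem ThRel.add_coc {W : Finset I} {j : ℕ} {del : I → G → ZMod l}
    {Psi : Finset I → G → V} {Th c : G → V1} (h : ThRel S j del Psi W Th)
    (hc : ∀ s t, c (s * t) = c s + S.ac s (c t)) : ThRel S j del Psi W (fun s => Th s - c s) := by
  intro s t
  simp only [h s t, hc s t, map_add, map_sub]; abel

/-- Where all `del i` vanish a solution of the relation is a cocycle. -/
theorem ThRel.cocV {W : Finset I} {j : ℕ} {del : I → G → ZMod l}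
    {Psi : Finset I → G → V} {Th : G → V1} (h : ThRel S j del Psi W Th) (htf : S.TF Th) {v : Pl}
    (hdel : ∀ i, ∀ s ∈ S.D v, del i s = 0) : S.CocV v Th := by
  refine ⟨?_, fun s hs t _ => ?_⟩
  · obtain ⟨N, hN, h1⟩ := htf
    exact ⟨N, hN, fun s _ n hn _ => h1 s n hn⟩
  rw [h s t]
  congr 2
  have : ∑ T ∈ W.powerset.erase ∅, pdel del T s • PhiC S j Psi (W \ T) t = 0 := by
    apply Finset.sum_eq_zero
    intro T hT
    obtain ⟨hT0, _⟩ := Finset.mem_erase.1 hT
    obtain ⟨i, hi⟩ := Finset.nonempty_iff_ne_empty.2 hT0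
    have : pdel del T s = 0 := Finset.prod_eq_zero hi (hdel i s hs)
    rw [this, zero_smul]
  rw [this, add_zero]

/-- Where all `del i` vanish a solution of the relation is a cocycle. -/
theorem ThRel.cp {W : Finset I} {j : ℕ} {del : I → G → ZMod l}
    {Psi : Finset I → G → V} {Th : G → V1} (h : ThRel S j del Psi W Th) (htf : S.TF Th) {v : Pl}
    (hdel : ∀ i, ∀ s ∈ S.D v, del i s = 0) : S.loc v Th ∈ S.CP v :=
  ⟨Th, h.cocV htf hdel, rfl⟩

end

end Pool.Agent.SmL
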