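import Pool.Agent.Lib.SmL.H.Min
import Pool.Agent.Lib.SmL.H.ThRel
import Pool.Agent.Lib.SmL.H.Rec

/-!
# SMITH-L, block H: the family of cochains of a special direction `o`

`f : κ ↪ I` = the unsupported directions, `o` a further direction. `uniOf ... Th` has
`Phi T = Phi_(f(T) ∪ {o})` for `T ≠ univ` and `Phi univ = Th`.
-/

set_option autoImplicit false

open Finset

namespace Pool.Agent.SmL

section

variable {l : ℕ} {A G V V1 Pl I κ : Type*} [CommRing A] [Group G] [AddCommGroup V] [Module A V]
  [DistribMulAction G V] [AddCommGroup V1] [Module (ZMod l) V1] [DecidableEq I] [DecidableEq κ]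
  [Fintype κ]

/-- The family of cochains of the special direction `o`. -/
noncomputable def uniOf (S : Sys l A G V V1 Pl) (j : ℕ) (del : I → G → ZMod l)
    (Psi : Finset I → G → V) (f : κ ↪ I) (o : I) (Th : G → V1) : Uni l κ G V1 where
  dl i s := del (f i) s
  Phi T := if T = univ then Th else PhiC S j Psi (insert o (T.map f))

variable {S : Sys l A G V V1 Pl} {j : ℕ} {del : I → G → ZMod l} {Psi : Finset I → G → V}
  {f : κ ↪ I} {o : I} {Th : G → V1}

theorem uniOf_univ : (uniOf S j del Psi f o Th).Phi univ = Th := if_pos rfl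

theorem uniOf_ne {T : Finset κ} (hT : T ≠ univ) :
    (uniOf S j del Psi f o Th).Phi T = PhiC S j Psi (insert o (T.map f)) := if_neg hT

omit [Fintype κ] [DecidableEq κ] [DecidableEq I] in
theorem notMem_map (ho : ∀ i, f i ≠ o) (T : Finset κ) : o ∉ T.map f := by
  intro hc
  obtain ⟨i, _, hi⟩ := mem_map.1 hc
  exact ho i hi

omit [Fintype κ] [DecidableEq κ] in
theorem card_up (ho : ∀ i, f i ≠ o) (T : Finset κ) : (insert o (T.map f)).card = T.card + 1 := by
  rw [card_insert_of_notMem (notMem_map ho T), card_map]

omit [DecidableEq κ] in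
theorem up_sub (T : Finset κ) : insert o (T.map f) ⊆ insert o (univ.map f) :=
  insert_subset_insert o (map_subset_map.2 (subset_univ T))

omit [Group G] in
/-- Reindexing of the sums over the subsets of `T ∪ {o}`. -/
theorem sum_up (ho : ∀ i, f i ≠ o) (del : I → G → ZMod l) (F : Finset I → V1)
    (hF : ∀ R, R ⊆ univ.map f → F R = 0) (T : Finset κ) (s : G) :
    ∑ Q ∈ (insert o (T.map f)).powerset, pdel del Q s • F (insert o (T.map f) \ Q) =
      ∑ T' ∈ T.powerset, (∏ i ∈ T', del (f i) s) • F (insert o ((T \ T').map f)) := by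
  rw [sum_powerset_insert (notMem_map ho T)]
  have e1 : ∑ Q ∈ (T.map f).powerset,
      pdel del (insert o Q) s • F (insert o (T.map f) \ insert o Q) = 0 := by
    apply sum_eq_zero
    intro Q _
    rw [hF, smul_zero]
    intro x hx
    obtain ⟨h1, h2⟩ := mem_sdiff.1 hx
    rw [mem_insert, not_or] at h2
    exact map_subset_map.2 (subset_univ T) ((mem_insert.1 h1).resolve_left h2.1)
  rw [e1, add_zero]
  symm
  apply sum_nbij (fun T' : Finset κ => T'.map f)
  · intro T' hT'
    rw [mem_powerset] at hT' ⊢
    exact map_subset_map.2 hT'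
  · intro B _ B' _ hAB
    exact map_injective _ hAB
  · intro Q hQ
    rw [mem_coe, mem_powerset] at hQ
    obtain ⟨u, hu, rfl⟩ := subset_map_iff.1 hQ
    exact ⟨u, mem_coe.2 (mem_powerset.2 hu), rfl⟩
  · intro T' _
    have e2 : insert o (T.map f) \ T'.map f = insert o ((T \ T').map f) := by
      rw [Finset.map_sdiff, insert_sdiff_of_notMem _ (notMem_map ho T')]
    rw [e2]
    unfold pdel
    rw [prod_map]

/-- The relations: all the faces off the direction `o` have `Phi = 0`. -/
theorem uniOf_isA (hS : S.Ok) {chi0 : G → ZMod l} (hj : Fintype.card κ = j) (ho : ∀ i, f i ≠ o)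
    (hst : Star S (insert o (univ.map f)) j Psi) (hdel : ∀ i, S.HomG (del i))
    (hc : ∀ P, P ⊆ insert o (univ.map f) → ∀ s t,
      Psi P (s * t) = Psi P s + S.tw (chiC chi0 del P) s (Psi P t))
    (hz : ∀ R, R ⊆ univ.map f → ∀ t, PhiC S j Psi R t = 0)
    (hth : ThRel S j del Psi (insert o (univ.map f)) Th) :
    Uni.IsA S.ac (uniOf S j del Psi f o Th) := by
  refine ⟨fun i s t => (hdel (f i)).2 s t, fun T s t => ?_⟩
  by_cases hT : T = univ
  · subst hT
    let F : Finset I → V1 := fun R =>
      if R = insert o (univ.map f) then Th t else PhiC S j Psi R t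
    have hne : ∀ R, R ⊆ univ.map f → R ≠ insert o (univ.map f) := by
      rintro R hR rfl
      exact notMem_map ho univ (hR (mem_insert_self _ _))
    have hF : ∀ R, R ⊆ univ.map f → F R = 0 := by
      intro R hR
      change (if R = insert o (univ.map f) then Th t else PhiC S j Psi R t) = 0
      rw [if_neg (hne R hR)]
      exact hz R hR t
    have h1 := sum_up ho del F hF univ s
    have h2 : ∑ Q ∈ (insert o ((univ : Finset κ).map f)).powerset,
        pdel del Q s • F (insert o (univ.map f) \ Q) =
        Th t + ∑ T ∈ (insert o ((univ : Finset κ).map f)).powerset.erase ∅,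
          pdel del T s • PhiC S j Psi (insert o (univ.map f) \ T) t := by
      rw [← add_sum_erase _ _ (empty_mem_powerset _)]
      congr 1
      · rw [pdel_empty, one_smul, sdiff_empty]
        exact if_pos rfl
      · apply sum_congr rfl
        intro Q hQ
        obtain ⟨hQ0, hQ1⟩ := mem_erase.1 hQ
        have hne' : (insert o ((univ : Finset κ).map f)) \ Q ≠ insert o (univ.map f) := by
          intro hh
          obtain ⟨i, hi⟩ := nonempty_iff_ne_empty.2 hQ0
          have := mem_powerset.1 hQ1 hi
          rw [← hh, mem_sdiff] at this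
          exact this.2 hi
        congr 1
        exact if_neg hne'
    have h3 := hth s t
    rw [h1] at h2
    rw [uniOf_univ, h3, ← h2, map_sum]
    congr 1
    apply sum_congr rfl
    intro T' _
    rw [map_smul]
    congr 2
    by_cases hT' : univ \ T' = univ
    · rw [hT', uniOf_univ]
      exact if_pos rfl
    · rw [uniOf_ne hT']
      refine if_neg ?_
      intro hh
      apply hT'
      have h5 := congrArg (fun R => R.erase o) hh
      simp only [erase_insert (notMem_map ho _)] at h5
      exact map_injective _ h5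
  · have hcard : (insert o (T.map f)).card ≤ j := by
      rw [card_up ho, ← hj]
      have h4 : T.card < (univ : Finset κ).card := card_lt_card (ssubset_univ_iff.2 hT)
      rwa [card_univ] at h4
    have h1 := phiC_mul hS (chi0 := chi0) hst hc (up_sub T) hcard s t
    have h2 := sum_up ho del (fun R => PhiC S j Psi R t) (fun R hR => hz R hR t) T s
    rw [h2] at h1
    rw [uniOf_ne hT, h1, map_sum]
    congr 1
    apply sum_congr rfl
    intro T' _
    rw [map_smul]
    congr 2
    rw [uniOf_ne]
    intro hh
    apply hT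
    apply eq_univ_of_forall
    intro i
    have := mem_univ i
    rw [← hh] at this
    exact (mem_sdiff.1 this).1

/-- Finiteness. -/
theorem uniOf_tf (hS : S.Ok) (htf : ∀ P, P ⊆ insert o (univ.map f) → S.TF (Psi P))
    (hth : S.TF Th) : (uniOf S j del Psi f o Th).TFU S := by
  obtain ⟨N, hN, h1⟩ := tf_family hS (univ : Finset (Finset κ))
    (fun T => (uniOf S j del Psi f o Th).Phi T) (fun T _ => by
      by_cases hT : T = univ
      · rw [hT, uniOf_univ]
        exact hth
      · rw [uniOf_ne hT]
        exact phiC_tf hS fun T' hT' => htf T' (hT'.trans (up_sub T)))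
  exact ⟨N, hN, fun T s n hn => h1 T (mem_univ T) s n hn⟩

end

end Pool.Agent.SmL
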