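import Mathlib

/-!
Project SMITH over `F_q(t)` (MP_48b749_nt), block H (cube theorem): alternating sums over faces.

A vertex of the cube `{0,1}^S` is a `Finset S` (the set of the `i` with `eps_i = 1`). The face with
directions `U` at the position `P` (`Disjoint U P`) has the vertices `P ∪ T`, `T ⊆ U`. For a family
`f : Finset S → M` the alternating sum over this face is
`alt U f P = ∑ T ⊆ U, (-1)^|T| • f (P ∪ T)`.
-/

set_option autoImplicit false

open Finset

namespace Pool.Agent.SmL

variable {S : Type*} [DecidableEq S] {M N : Type*} [AddCommGroup M] [AddCommGroup N]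

/-- The alternating sum of the family `f` over the face with directions `U` at the position `P`. -/
def alt (U : Finset S) (f : Finset S → M) (P : Finset S) : M :=
  ∑ T ∈ U.powerset, (-1 : ℤ) ^ T.card • f (P ∪ T)

@[simp] theorem alt_empty (f : Finset S → M) (P : Finset S) : alt ∅ f P = f P := by
  simp [alt]

theorem alt_insert {i : S} {U : Finset S} (hi : i ∉ U) (f : Finset S → M) (P : Finset S) :
    alt (insert i U) f P = alt U f P - alt U f (insert i P) := by
  unfold alt
  rw [Finset.sum_powerset_insert hi, sub_eq_add_neg, ← Finset.sum_neg_distrib]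
  congr 1
  apply Finset.sum_congr rfl
  intro T hT
  have hiT : i ∉ T := fun h => hi (Finset.mem_powerset.1 hT h)
  rw [Finset.card_insert_of_notMem hiT, pow_succ]
  have : P ∪ insert i T = insert i P ∪ T := by
    rw [Finset.union_insert, Finset.insert_union]
  rw [this]
  simp

theorem alt_singleton (i : S) (f : Finset S → M) (P : Finset S) :
    alt {i} f P = f P - f (insert i P) := by
  have h := alt_insert (Finset.notMem_empty i) f P
  simpa using h

theorem alt_of_mem {i : S} {U : Finset S} (hi : i ∈ U) (f : Finset S → M) (P : Finset S) :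
    alt U f P = alt (U.erase i) f P - alt (U.erase i) f (insert i P) := by
  conv_lhs => rw [← Finset.insert_erase hi]
  exact alt_insert (Finset.notMem_erase i U) f P

theorem alt_congr {U : Finset S} {f g : Finset S → M} {P : Finset S}
    (h : ∀ T, T ⊆ U → f (P ∪ T) = g (P ∪ T)) : alt U f P = alt U g P := by
  unfold alt
  apply Finset.sum_congr rfl
  intro T hT
  rw [h T (Finset.mem_powerset.1 hT)]

theorem alt_add (U : Finset S) (f g : Finset S → M) (P : Finset S) :
    alt U (fun Q => f Q + g Q) P = alt U f P + alt U g P := by
  simp [alt, Finset.sum_add_distrib]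

theorem alt_sub (U : Finset S) (f g : Finset S → M) (P : Finset S) :
    alt U (fun Q => f Q - g Q) P = alt U f P - alt U g P := by
  simp [alt, smul_sub, Finset.sum_sub_distrib]

theorem alt_map (φ : M →+ N) (U : Finset S) (f : Finset S → M) (P : Finset S) :
    alt U (fun Q => φ (f Q)) P = φ (alt U f P) := by
  simp [alt, map_sum, map_zsmul]

theorem alt_nsmul (n : ℕ) (U : Finset S) (f : Finset S → M) (P : Finset S) :
    alt U (fun Q => n • f Q) P = n • alt U f P := by
  simp only [alt, Finset.smul_sum]
  apply Finset.sum_congr rfl
  intro T _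
  exact smul_comm _ _ _

theorem alt_zero (U : Finset S) (P : Finset S) : alt U (fun _ => (0 : M)) P = 0 := by
  simp [alt]

theorem alt_finsetSum {ι : Type*} (s : Finset ι) (U : Finset S) (f : ι → Finset S → M)
    (P : Finset S) : alt U (fun Q => ∑ i ∈ s, f i Q) P = ∑ i ∈ s, alt U (f i) P := by
  simp only [alt, Finset.smul_sum]
  exact Finset.sum_comm

theorem alt_apply {X : Type*} (U : Finset S) (f : Finset S → X → M) (P : Finset S) (x : X) :
    alt U f P x = alt U (fun Q => f Q x) P := by
  simp [alt, Finset.sum_apply]

/-- The alternating sum over a big face, from the alternating sums over the parallel small faces. -/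
theorem alt_union {U W : Finset S} (h : Disjoint U W) (f : Finset S → M) (P : Finset S) :
    alt (U ∪ W) f P = alt W (fun Q => alt U f Q) P := by
  induction W using Finset.induction_on generalizing P with
  | empty => simp
  | insert i W hi ih =>
    have h1 : Disjoint U W := h.mono_right (Finset.subset_insert i W)
    have h2 : i ∉ U ∪ W := by
      intro hc
      rcases Finset.mem_union.1 hc with hc | hc
      · exact (Finset.disjoint_left.1 h hc) (Finset.mem_insert_self i W)
      · exact hi hc
    rw [Finset.union_insert, alt_insert h2, alt_insert hi, ih h1, ih h1]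

/-- If all faces with directions `U ⊆ W` inside the face `(W, P)` have alternating sum zero then so
has `(W, P)`. -/
theorem alt_eq_zero_of_subset {U W : Finset S} (h : U ⊆ W) (f : Finset S → M) (P : Finset S)
    (h0 : ∀ T, T ⊆ W \ U → alt U f (P ∪ T) = 0) : alt W f P = 0 := by
  have h1 : U ∪ (W \ U) = W := Finset.union_sdiff_of_subset h
  rw [← h1, alt_union Finset.disjoint_sdiff]
  have : alt (W \ U) (fun Q => alt U f Q) P = alt (W \ U) (fun _ => (0 : M)) P := by
    apply alt_congr
    intro T hT
    exact h0 T hT
  rw [this, alt_zero]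

/-- All the parallel faces but the top one have alternating sum zero, and the big face has: then
also the top one. -/
theorem alt_top_eq_zero {U W : Finset S} (h : U ⊆ W) (f : Finset S → M) (P : Finset S)
    (h0 : ∀ T, T ⊂ W \ U → alt U f (P ∪ T) = 0) (hW : alt W f P = 0) :
    alt U f (P ∪ (W \ U)) = 0 := by
  have h1 : U ∪ (W \ U) = W := Finset.union_sdiff_of_subset h
  rw [← h1, alt_union Finset.disjoint_sdiff] at hW
  unfold alt at hW
  rw [Finset.sum_eq_single (W \ U)] at hW
  · have : ((-1 : ℤ) ^ (W \ U).card) • alt U f (P ∪ (W \ U)) = 0 := hW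
    rcases Int.units_eq_one_or ((-1 : ℤˣ) ^ (W \ U).card) with h2 | h2
    · have h3 : (-1 : ℤ) ^ (W \ U).card = 1 := by
        have := congrArg (fun u : ℤˣ => (u : ℤ)) h2
        simpa using this
      rwa [h3, one_smul] at this
    · have h3 : (-1 : ℤ) ^ (W \ U).card = -1 := by
        have := congrArg (fun u : ℤˣ => (u : ℤ)) h2
        simpa using this
      rw [h3, neg_smul, one_smul, neg_eq_zero] at this
      exact this
  · intro T hT hne
    have : alt U f (P ∪ T) = 0 :=
      h0 T (lt_of_le_of_ne (Finset.mem_powerset.1 hT) hne)
    change (-1 : ℤ) ^ T.card • alt U f (P ∪ T) = 0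
    rw [this, smul_zero]
  · intro hn
    exact absurd (Finset.mem_powerset_self _) hn

/-- If `f` does not depend on the direction `i ∈ U` then the alternating sum vanishes. -/
theorem alt_eq_zero_of_indep {i : S} {U : Finset S} (hi : i ∈ U) (f : Finset S → M)
    (P : Finset S) (h : ∀ T, T ⊆ U.erase i → f (insert i (P ∪ T)) = f (P ∪ T)) :
    alt U f P = 0 := by
  apply alt_eq_zero_of_subset (U := {i}) (by simpa using hi)
  intro T hT
  rw [alt_singleton, h T ?_, sub_self]
  rwa [Finset.erase_eq]

/-- The alternating sum of a constant over a nonempty face vanishes. -/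
theorem alt_const {U : Finset S} (hU : U.Nonempty) (m : M) (P : Finset S) :
    alt U (fun _ => m) P = 0 := by
  obtain ⟨i, hi⟩ := hU
  exact alt_eq_zero_of_indep hi _ P (fun _ _ => rfl)

/-- In a group of exponent two the alternating sum is the sum over the vertices of the face. -/
theorem alt_eq_sum_of_two (h2 : ∀ m : M, m + m = 0) (U : Finset S) (f : Finset S → M)
    (P : Finset S) : alt U f P = ∑ T ∈ U.powerset, f (P ∪ T) := by
  unfold alt
  apply Finset.sum_congr rfl
  intro T _
  rcases neg_one_pow_eq_or ℤ T.card with h | h
  · rw [h, one_smul]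
  · rw [h, neg_smul, one_smul]
    exact neg_eq_of_add_eq_zero_left (h2 _)

end Pool.Agent.SmL
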