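import Pool.Agent.Lib.SmL.G.CTDefs
import Pool.Agent.Lib.SmL.H.Alt

/-!
# SMITH-L (l odd), block H (cube theorem): definitions

`I` = set of directions, a vertex of the cube is a `Finset I`, the face with directions `U` at the
position `P` (`Disjoint U P`) has the vertices `P ∪ T`, `T ⊆ U`; `alt U f P` is the alternating sum.
`chi0` is the character of the vertex `∅`, `del i = ex i * (th_i^1 - th_i^0)`, the character of the
vertex `P` is `chiC chi0 del P = chi0 + ∑ i ∈ P, del i`.
-/

set_option autoImplicit false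

open Finset

namespace Pool.Agent.SmL

section

variable {l : ℕ} {A G V V1 Pl I : Type*} [CommRing A] [Group G] [AddCommGroup V] [Module A V]
  [DistribMulAction G V] [AddCommGroup V1] [Module (ZMod l) V1] [DecidableEq I]

/-- The twist at the vertex `P`. -/
def chiC (chi0 : G → ZMod l) (del : I → G → ZMod l) (P : Finset I) (s : G) : ZMod l :=
  chi0 s + ∑ i ∈ P, del i s

/-- The right (affine) family at the vertex `P`. -/
def bC (b0 : G → V1) (bet : I → G → V1) (P : Finset I) (s : G) : V1 :=
  b0 s + ∑ i ∈ P, bet i s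

/-- The product `∏ i ∈ T, del i s`. -/
def pdel (del : I → G → ZMod l) (T : Finset I) (s : G) : ZMod l := ∏ i ∈ T, del i s

/-- The product `∏ i ∈ T, uu (del i s)` in `A`; it acts on `V[lam]` as `pdel del T s`. -/
def pdelA (S : Sys l A G V V1 Pl) (del : I → G → ZMod l) (T : Finset I) (s : G) : A :=
  ∏ i ∈ T, S.uu (del i s)

/-- The assumptions H0 on the cube: `pl i false` and `pl i true` are the places `p_i^0`, `p_i^1`,
`ex i` is the exponent of the twists at these places. -/
structure CubeOk (S : Sys l A G V V1 Pl) (ex : I → ZMod l) (chi0 : G → ZMod l)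
    (del : I → G → ZMod l) (pl : I → Bool → Pl) : Prop where
  chi0_hom : S.HomG chi0
  del_hom : ∀ i, S.HomG (del i)
  good : ∀ i e, pl i e ∈ S.good
  split : ∀ i e, S.ac (S.phi (pl i e)) = 1
  ex_ne : ∀ i, ex i ≠ 0
  chi0_sg : ∀ i e, chi0 (S.sg (pl i e)) = if e then 0 else ex i
  del_sg : ∀ i e, del i (S.sg (pl i e)) = if e then ex i else -ex i
  del_D : ∀ i e j, j ≠ i → ∀ s ∈ S.D (pl i e), del j s = 0
  other : ∀ v, (∀ i e, v ≠ pl i e) → (∀ i, ∀ s ∈ S.D v, del i s = 0) ∨
    (v ∈ S.good ∧ chi0 (S.sg v) = 0 ∧ ∀ i, del i (S.sg v) = 0)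

/-- The assumptions on the differences `bet i` of the right family: cocycles which vanish on the
decomposition groups of the other places of the cube; at a place outside the cube either all
`del i` vanish and the `bet i` are coboundaries, or everything is unramified. -/
structure BetOk (S : Sys l A G V V1 Pl) (chi0 : G → ZMod l) (del : I → G → ZMod l)
    (pl : I → Bool → Pl) (bet : I → G → V1) : Prop where
  coc : ∀ i, S.CocG (bet i)
  D : ∀ i e j, j ≠ i → ∀ s ∈ S.D (pl i e), bet j s = 0
  other : ∀ v, (∀ i e, v ≠ pl i e) →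
    ((∀ i, ∀ s ∈ S.D v, del i s = 0) ∧ ∀ i, ∃ z, ∀ s ∈ S.D v, bet i s = S.ac s z - z) ∨
    (v ∈ S.good ∧ chi0 (S.sg v) = 0 ∧ (∀ i, del i (S.sg v) = 0) ∧ ∀ i, bet i (S.sg v) = 0)

/-- The index of a face with directions `U` for the special directions `σ`: `|U|` if `U` does not
meet `σ`, `|U| - 1` otherwise. -/
def ix (σ U : Finset I) : ℕ := if Disjoint U σ then U.card else U.card - 1

/-- Minimality at level `j` of the face `(U, P)`: `A_U Psi_n = 0` for `n = ix σ U`. (For `σ = ∅` or
`U` disjoint from `σ` this is `A_U Psi_{|U|} = 0`.) -/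
def Mn (S : Sys l A G V V1 Pl) (σ : Finset I) (j : ℕ) (Psi : Finset I → G → V)
    (U P : Finset I) : Prop :=
  ∀ s, alt U (fun T => S.lam ^ (j - ix σ U) • Psi T s) P = 0

/-- All the faces inside the region `W` are minimal. -/
def MnAll (S : Sys l A G V V1 Pl) (W σ : Finset I) (j : ℕ) (Psi : Finset I → G → V) : Prop :=
  ∀ U P, U ⊆ W → P ⊆ W → Disjoint U P → U.Nonempty → ix σ U ≤ j → Mn S σ j Psi U P

/-- Weak minimality (*) at level `j` in the region `W`: for all faces `(U, P)` inside `W` and all `a`
with `|U| + a ≥ j + 1`: `A_U (lam^a Psi) = 0` (equivalently `A_U Psi_{|U|-1} = 0` for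
`1 ≤ |U| ≤ j + 1` and `lam^(j+1) Psi = 0`). -/
def Star (S : Sys l A G V V1 Pl) (W : Finset I) (j : ℕ) (Psi : Finset I → G → V) : Prop :=
  ∀ U P, U ⊆ W → P ⊆ W → Disjoint U P → ∀ a, j + 1 ≤ U.card + a →
    ∀ s, alt U (fun T => S.lam ^ a • Psi T s) P = 0

/-- The function `Phi_R : G → V1` of a family of level `j` (at the position `∅`). -/
noncomputable def PhiC (S : Sys l A G V V1 Pl) (j : ℕ) (Psi : Finset I → G → V) (R : Finset I)
    (s : G) : V1 :=
  S.un (alt R (fun T => S.lam ^ (j - R.card) • Psi T s) ∅)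

/-! ### Elementary facts -/

/-- The twisted coboundary as a homomorphism in `Q`. -/
def dlHom (S : Sys l A G V V1 Pl) (chi : G → ZMod l) (s : G) : V →+ V where
  toFun := fun Q => S.dl chi Q s
  map_zero' := Sys.dl_zero S chi s
  map_add' := fun Q R => Sys.dl_add S chi Q R s

/-- The twisted action as a homomorphism. -/
def twHom (S : Sys l A G V V1 Pl) (chi : G → ZMod l) (s : G) : V →+ V where
  toFun := fun Q => S.tw chi s Q
  map_zero' := Sys.tw_zero S chi s
  map_add' := fun Q R => Sys.tw_add S chi s Q R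

@[simp] theorem dlHom_apply (S : Sys l A G V V1 Pl) (chi : G → ZMod l) (s : G) (Q : V) :
    dlHom S chi s Q = S.dl chi Q s := rfl

@[simp] theorem twHom_apply (S : Sys l A G V V1 Pl) (chi : G → ZMod l) (s : G) (Q : V) :
    twHom S chi s Q = S.tw chi s Q := rfl

theorem tw_congr (S : Sys l A G V V1 Pl) {chi chi' : G → ZMod l} {s : G} (h : chi s = chi' s)
    (Q : V) : S.tw chi s Q = S.tw chi' s Q := by
  simp [Sys.tw, h]

theorem dl_congr (S : Sys l A G V V1 Pl) {chi chi' : G → ZMod l} {s : G} (h : chi s = chi' s)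
    (Q : V) : S.dl chi Q s = S.dl chi' Q s := by
  simp [Sys.dl, Sys.tw, h]

/-- Alternating sums commute with the scalars of `A`. -/
theorem alt_smulA (a : A) (U : Finset I) (f : Finset I → V) (P : Finset I) :
    alt U (fun Q => a • f Q) P = a • alt U f P :=
  alt_map (DistribSMul.toAddMonoidHom V a) U f P

omit [Group G] [DecidableEq I] in
theorem chiC_empty (chi0 : G → ZMod l) (del : I → G → ZMod l) :
    chiC chi0 del ∅ = chi0 := by
  funext s; simp [chiC]

omit [Group G] in
theorem chiC_insert (chi0 : G → ZMod l) (del : I → G → ZMod l) {i : I} {P : Finset I}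
    (hi : i ∉ P) (s : G) : chiC chi0 del (insert i P) s = chiC chi0 del P s + del i s := by
  simp only [chiC, Finset.sum_insert hi]; ring

omit [Group G] [Module (ZMod l) V1] in
theorem bC_insert (b0 : G → V1) (bet : I → G → V1) {i : I} {P : Finset I}
    (hi : i ∉ P) (s : G) : bC b0 bet (insert i P) s = bC b0 bet P s + bet i s := by
  simp only [bC, Finset.sum_insert hi]; abel

omit [Group G] in
theorem pdel_insert (del : I → G → ZMod l) {i : I} {T : Finset I} (hi : i ∉ T) (s : G) :
    pdel del (insert i T) s = del i s * pdel del T s := by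
  simp [pdel, Finset.prod_insert hi]

omit [Group G] [DecidableEq I] in
theorem pdel_empty (del : I → G → ZMod l) (s : G) : pdel del ∅ s = 1 := by
  simp [pdel]

theorem pdelA_insert (S : Sys l A G V V1 Pl) (del : I → G → ZMod l) {i : I} {T : Finset I}
    (hi : i ∉ T) (s : G) : pdelA S del (insert i T) s = S.uu (del i s) * pdelA S del T s := by
  simp [pdelA, Finset.prod_insert hi]

omit [DecidableEq I] in
theorem pdelA_empty (S : Sys l A G V V1 Pl) (del : I → G → ZMod l) (s : G) :
    pdelA S del ∅ s = 1 := by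
  simp [pdelA]

/-- `pdelA` acts on `V[lam]` as `pdel`. -/
theorem pdelA_iota {S : Sys l A G V V1 Pl} (h : S.Ok) (del : I → G → ZMod l) (T : Finset I)
    (s : G) (w : V1) : pdelA S del T s • S.iota w = S.iota (pdel del T s • w) := by
  induction T using Finset.induction_on generalizing w with
  | empty => rw [pdelA_empty, pdel_empty, one_smul, one_smul]
  | insert i T hi ih =>
    rw [pdelA_insert S del hi, pdel_insert del hi, mul_smul, ih, Sys.uu_iota h, mul_smul]

omit [Group G] in
theorem ix_of_disjoint {σ U : Finset I} (h : Disjoint U σ) : ix σ U = U.card := if_pos h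

omit [Group G] in
theorem ix_of_not {σ U : Finset I} (h : ¬ Disjoint U σ) : ix σ U = U.card - 1 := if_neg h

/-- The twists of the cube are `NN`-finite homomorphisms. -/
theorem chiC_hom {S : Sys l A G V V1 Pl} (h : S.Ok) {chi0 : G → ZMod l} {del : I → G → ZMod l}
    (h0 : S.HomG chi0) (hd : ∀ i, S.HomG (del i)) (P : Finset I) :
    S.HomG (chiC chi0 del P) := by
  induction P using Finset.induction_on with
  | empty => rw [chiC_empty]; exact h0
  | insert i P hi ih =>
    have e : chiC chi0 del (insert i P) = fun s => chiC chi0 del P s + del i s := by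
      funext s; exact chiC_insert chi0 del hi s
    rw [e]
    refine ⟨ih.1.comp₂ h (hd i).1 (fun a b => a + b), fun s t => ?_⟩
    simp only [ih.2 s t, (hd i).2 s t]
    ring

end

end Pool.Agent.SmL
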