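import Pool.Agent.Lib.SmL.H.Defs

/-!
# SMITH-L, block H, H7: vanishing of `Phi_R` on the decomposition groups of a direction

If all the vertices of a face `(R, P)` (`P = {ib}` or `∅`, `ib ∉ R`) which contain the prime
`p = pl ib e` have the same value at `sg p`, then `Phi_R` vanishes on `D p`.
-/

set_option autoImplicit false

open Finset

namespace Pool.Agent.SmL

section

variable {l : ℕ} {A G V V1 Pl I : Type*} [CommRing A] [Group G] [AddCommGroup V] [Module A V]
  [DistribMulAction G V] [AddCommGroup V1] [Module (ZMod l) V1] [DecidableEq I]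
variable {S : Sys l A G V V1 Pl}

private theorem PhiD_iota (hS : S.Ok) {W : Finset I} {j : ℕ} {Psi : Finset I → G → V}
    (h : Star S W j Psi) {R : Finset I} (hR : R ⊆ W) (hj : R.card ≤ j) (s : G) :
    S.iota (PhiC S j Psi R s) = alt R (fun T => S.lam ^ (j - R.card) • Psi T s) ∅ := by
  unfold PhiC
  apply Sys.iota_un hS
  rw [← alt_smulA]
  have := h R ∅ hR (Finset.empty_subset _) (Finset.disjoint_empty_right _) (j - R.card + 1)
    (by omega) s
  rw [← this]
  congr 1
  funext T
  rw [smul_smul, ← pow_succ']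

private theorem PhiD_iota_pos (hS : S.Ok) {W : Finset I} {j : ℕ} {Psi : Finset I → G → V}
    (h : Star S W j Psi) {R P : Finset I} (hR : R ⊆ W) (hP : P ⊆ W) (hRP : Disjoint R P)
    (hj : R.card ≤ j) (s : G) :
    S.iota (PhiC S j Psi R s) = alt R (fun T => S.lam ^ (j - R.card) • Psi T s) P := by
  induction P using Finset.induction_on with
  | empty => exact PhiD_iota hS h hR hj s
  | insert i P hi ih =>
    have hiR : i ∉ R := fun hc => (Finset.disjoint_left.1 hRP) hc (Finset.mem_insert_self i P)
    have hPW : P ⊆ W := (Finset.subset_insert i P).trans hP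
    have h1 := ih hPW (hRP.mono_right (Finset.subset_insert i P))
    have hiW : i ∈ W := hP (Finset.mem_insert_self i P)
    have h2 := h (insert i R) P (Finset.insert_subset hiW hR) hPW (by
      rw [Finset.disjoint_insert_left]
      exact ⟨hi, hRP.mono_right (Finset.subset_insert i P)⟩) (j - R.card) (by
      rw [Finset.card_insert_of_notMem hiR]; omega) s
    rw [alt_insert hiR, sub_eq_zero] at h2
    rw [h1, h2]

/-- H7: if all vertices of a face which contain the prime `p = pl ib e` have the same value at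
`sg p`, then `Phi_R` vanishes on `D p`, for every set `R` of directions, `1 ≤ |R| ≤ j`, `ib ∉ R`.
The vertices used are `R' ` and `insert ib R'`, `R' ⊆ R`. -/
theorem phiC_zero_on_D (hS : S.Ok) {ex : I → ZMod l} {chi0 : G → ZMod l} {del : I → G → ZMod l}
    {pl : I → Bool → Pl} (hC : CubeOk S ex chi0 del pl) {W : Finset I} {j : ℕ}
    {Psi : Finset I → G → V} (hst : Star S W j Psi)
    (hPsi : ∀ X, X ⊆ W → S.IsSel (chiC chi0 del X) j (Psi X)) {R : Finset I} (hR : R ⊆ W)
    (hR0 : R.Nonempty) (hj : R.card ≤ j) {ib : I} (hib : ib ∉ R) (hibW : ib ∈ W) (e : Bool)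
    {c : V} (hcol : ∀ T, T ⊆ R → Psi (if e then insert ib T else T) (S.sg (pl ib e)) = c) :
    ∀ s ∈ S.D (pl ib e), PhiC S j Psi R s = 0 := by
  intro s hs
  set P : Finset I := if e then {ib} else ∅ with hP
  have hPW : P ⊆ W := by
    rw [hP]
    cases e
    · exact Finset.empty_subset _
    · exact Finset.singleton_subset_iff.2 hibW
  have hRP : Disjoint R P := by
    rw [hP]
    cases e
    · exact Finset.disjoint_empty_right _
    · exact Finset.disjoint_singleton_right.2 hib
  have hPT : ∀ T, T ⊆ R → P ∪ T = if e then insert ib T else T := by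
    intro T _
    rw [hP]
    cases e
    · simp
    · simp
  apply hS.iota_inj
  rw [map_zero, PhiD_iota_pos hS hst hR hPW hRP hj s]
  -- the twists agree on `D`
  set χ : G → ZMod l := chiC chi0 del P with hχ
  have hag : ∀ T, T ⊆ R → ∀ t ∈ S.D (pl ib e), chiC chi0 del (P ∪ T) t = χ t := by
    intro T hT t ht
    rw [hχ]
    unfold chiC
    congr 1
    symm
    apply Finset.sum_subset Finset.subset_union_left
    intro l hl hlP
    rcases Finset.mem_union.1 hl with h | h
    · exact absurd h hlP
    · exact hC.del_D ib e l (fun h' => hib (h' ▸ hT h)) t ht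
  have hχsg : χ (S.sg (pl ib e)) ≠ 0 := by
    have h1 : χ (S.sg (pl ib e)) = ex ib := by
      rw [hχ, hP]
      unfold chiC
      rw [hC.chi0_sg ib e]
      cases e
      · simp
      · simp [hC.del_sg ib true]
    rw [h1]
    exact hC.ex_ne ib
  -- local points
  have hQ : ∀ X, ∃ Q : V, X ⊆ W → ∀ t ∈ S.D (pl ib e),
      Psi X t = S.dl (chiC chi0 del X) Q t := by
    intro X
    by_cases hX : X ⊆ W
    · obtain ⟨Q, hQ⟩ := (hPsi X hX).loc (pl ib e)
      exact ⟨Q, fun _ => hQ⟩
    · exact ⟨0, fun h => absurd h hX⟩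
  choose Q hQ using hQ
  have hall : ∀ t ∈ S.D (pl ib e), alt R (fun T => S.lam ^ (j - R.card) • Psi T t) P =
      S.dl χ (alt R (fun T => S.lam ^ (j - R.card) • Q T) P) t := by
    intro t ht
    have h1 := alt_map (dlHom S χ t) R (fun T => S.lam ^ (j - R.card) • Q T) P
    simp only [dlHom_apply] at h1
    rw [← h1]
    apply alt_congr
    intro T hT
    rw [hQ _ (Finset.union_subset hPW (hT.trans hR)) t ht, Sys.dl_smul hS,
      dl_congr S (hag T hT t ht)]
  rw [hall s hs]
  refine Sys.fill_zero hS (hC.good ib e) hχsg ?_ (Sys.ac_D hS (hC.good ib e) (hC.split ib e) s hs)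
  rw [← hall _ (hS.sg_mem _)]
  have hconst : alt R (fun T => S.lam ^ (j - R.card) • Psi T (S.sg (pl ib e))) P =
      alt R (fun _ => S.lam ^ (j - R.card) • c) P := by
    apply alt_congr
    intro T hT
    rw [hPT T hT, hcol T hT]
  rw [hconst, alt_const hR0]

end

end Pool.Agent.SmL
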