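import Pool.Agent.Lib.SmL.H.UniOf
import Pool.Agent.Lib.SmL.H.PhiD

/-!
# SMITH-L, block H, H9.3: the reciprocity between the two special directions

The directions are `ia`, `ib` and `f i`, `i : κ`, `|κ| = j` the level. `ThA` is the cochain of the face
with all the directions but `ia`, `ThB` the one of the face with all the directions but `ib`.
-/

set_option autoImplicit false

open Finset

namespace Pool.Agent.SmL

section

variable {l : ℕ} {A G V V1 Pl I κ : Type*} [CommRing A] [Group G] [AddCommGroup V] [Module A V]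
  [DistribMulAction G V] [AddCommGroup V1] [Module (ZMod l) V1] [DecidableEq I] [DecidableEq κ]
  [Fintype κ] [Fintype I]
  {S : Sys l A G V V1 Pl}

omit [Fintype I] in
/-- On a decomposition group where all the twists agree the values of `Phi_R` are in the Kummer
group. -/
theorem phiC_mem_Wl (hS : S.Ok) {chi0 : G → ZMod l} {del : I → G → ZMod l} {W : Finset I} {j : ℕ}
    {Psi : Finset I → G → V} (hst : Star S W j Psi)
    (hPsi : ∀ X, X ⊆ W → S.IsSel (chiC chi0 del X) j (Psi X)) {R : Finset I} (hR : R ⊆ W)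
    (hj : R.card ≤ j) {v : Pl} (hdel : ∀ i, ∀ s ∈ S.D v, del i s = 0) :
    S.loc v (PhiC S j Psi R) ∈ S.Wl chi0 v := by
  have hQ : ∀ X, ∃ Q : V, X ⊆ W → ∀ t ∈ S.D v, Psi X t = S.dl (chiC chi0 del X) Q t := by
    intro X
    by_cases hX : X ⊆ W
    · obtain ⟨Q, hQ⟩ := (hPsi X hX).loc v
      exact ⟨Q, fun _ => hQ⟩
    · exact ⟨0, fun h => absurd h hX⟩
  choose Q hQ using hQ
  have hall : ∀ t ∈ S.D v, S.iota (PhiC S j Psi R t) =
      S.dl chi0 (alt R (fun T => S.lam ^ (j - R.card) • Q T) ∅) t := by
    intro t ht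
    have h1 := alt_map (dlHom S chi0 t) R (fun T => S.lam ^ (j - R.card) • Q T) ∅
    simp only [dlHom_apply] at h1
    rw [← h1, iota_phiC hS hst hR hj t]
    apply alt_congr
    intro T hT
    rw [empty_union, hQ _ (hT.trans hR) t ht]
    have h2 : chiC chi0 del T t = chi0 t := by
      unfold chiC
      rw [sum_eq_zero fun i _ => hdel i t ht, add_zero]
    rw [dl_congr S h2]
    exact (Sys.dl_smul hS chi0 _ _ _).symm
  refine ⟨_, fun s hs => ?_, (hall _ (hS.sg_mem v)).symm, (hall _ (hS.phi_mem v)).symm⟩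
  rw [← hall s hs, hS.lam_iota]


omit [Fintype I] [DecidableEq I] in
/-- The sum over the places of the two special directions. -/
theorem sum_two_dir (hS : S.Ok) {ex : I → ZMod l} {chi0 : G → ZMod l} {del : I → G → ZMod l}
    {pl : I → Bool → Pl} (hC : CubeOk S ex chi0 del pl) {ia ib : I} (hab : ia ≠ ib)
    (F : Pl → ZMod l) (h0 : ∀ v, (∀ e, v ≠ pl ia e) → (∀ e, v ≠ pl ib e) → F v = 0) :
    ∑ᶠ v, F v = (F (pl ia false) + F (pl ia true)) + (F (pl ib false) + F (pl ib true)) := by
  classical
  have hne1 : ∀ i, pl i false ≠ pl i true := by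
    intro i hh
    have h1 := hC.chi0_sg i false
    rw [hh, hC.chi0_sg i true] at h1
    simp only [if_true] at h1
    exact hC.ex_ne i (by simpa using h1.symm)
  have hne2 : ∀ i i', i ≠ i' → ∀ e e', pl i e ≠ pl i' e' := by
    intro i i' hii e e' hh
    have h1 := hC.del_D i e i' hii.symm _ (hS.sg_mem _)
    rw [hh, hC.del_sg i' e'] at h1
    have h2 := hC.ex_ne i'
    cases e' <;> simp_all
  rw [finsum_eq_sum_of_support_subset F
    (s := {pl ia false, pl ia true, pl ib false, pl ib true})]
  · rw [sum_insert, sum_insert, sum_insert, sum_singleton]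
    · ring
    · rw [mem_singleton]; exact hne1 ib
    · simp only [mem_insert, mem_singleton, not_or]
      exact ⟨hne2 ia ib hab _ _, hne2 ia ib hab _ _⟩
    · simp only [mem_insert, mem_singleton, not_or]
      exact ⟨hne1 ia, hne2 ia ib hab _ _, hne2 ia ib hab _ _⟩
  · intro v hv
    simp only [coe_insert, coe_singleton, Set.mem_insert_iff, Set.mem_singleton_iff]
    by_contra hc
    simp only [not_or] at hc
    refine hv (h0 v ?_ ?_)
    · intro e
      cases e
      · exact hc.1
      · exact hc.2.1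
    · intro e
      cases e
      · exact hc.2.2.1
      · exact hc.2.2.2

omit [DecidableEq κ] [Fintype I] in
theorem up_card_le {f : κ ↪ I} {o : I} {j : ℕ} (hj : Fintype.card κ = j) (ho : ∀ i, f i ≠ o)
    {T : Finset κ} (hT : T ≠ univ) : (insert o (T.map f)).card ≤ j := by
  rw [card_up ho, ← hj]
  have h4 : T.card < (univ : Finset κ).card := card_lt_card (ssubset_univ_iff.2 hT)
  rwa [card_univ] at h4

/-- H9.3: the reciprocity between the two special directions. -/
theorem diag_rec (hS : S.Ok) {ex : I → ZMod l} {chi0 : G → ZMod l} {del : I → G → ZMod l}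
    {pl : I → Bool → Pl} (hC : CubeOk S ex chi0 del pl) {bet : I → G → V1}
    (hB : BetOk S chi0 del pl bet) {j : ℕ} {f : κ ↪ I} (hj : Fintype.card κ = j) (hj1 : 1 ≤ j)
    {ia ib : I} (hab : ia ≠ ib) (hfa : ∀ i, f i ≠ ia) (hfb : ∀ i, f i ≠ ib)
    (hall : ∀ x : I, x = ia ∨ x = ib ∨ ∃ i, f i = x)
    {Psi : Finset I → G → V} (hPsi : ∀ X, S.IsSel (chiC chi0 del X) j (Psi X))
    (hmn : MnAll S univ {ia, ib} j Psi)
    (hcol : ∀ i e, ∃ c, ∀ T : Finset I, T.card ≤ j → i ∉ T →
      Psi (if e then insert i T else T) (S.sg (pl i e)) = c)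
    (hPa : ∀ s, PhiC S j Psi {ia} s = -bet ia s) (hPb : ∀ s, PhiC S j Psi {ib} s = -bet ib s)
    {ThA ThB : G → V1} (hA : ThRel S j del Psi (univ.erase ia) ThA) (hAt : S.TF ThA)
    (hA0 : ∀ v ∈ S.good, ThA (S.sg v) = 0)
    (hB' : ThRel S j del Psi (univ.erase ib) ThB) (hBt : S.TF ThB)
    (hB0 : ∀ v ∈ S.good, ThB (S.sg v) = 0) :
    S.se * ∑ e : Bool, S.e (ThA (S.phi (pl ia e))) (bet ia (S.sg (pl ia e))) =
      (-1) ^ j * ∑ e : Bool, S.e (ThB (S.phi (pl ib e))) (bet ib (S.sg (pl ib e))) := by
  have hlev : ∀ P, P ⊆ univ → ∀ s, S.lam ^ j • Psi P s = 0 := fun P _ => (hPsi P).lev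
  have hst : Star S univ j Psi := star_of_min hlev hmn
  have hPsi' : ∀ X, X ⊆ (univ : Finset I) → S.IsSel (chiC chi0 del X) j (Psi X) :=
    fun X _ => hPsi X
  have hWa : insert ia ((univ : Finset κ).map f) = univ.erase ib := by
    ext x
    rw [mem_insert, mem_map, mem_erase]
    constructor
    · rintro (rfl | ⟨i, _, rfl⟩)
      · exact ⟨hab, mem_univ _⟩
      · exact ⟨hfb i, mem_univ _⟩
    · rintro ⟨h1, _⟩
      rcases hall x with h | h | ⟨i, h⟩
      · exact Or.inl h
      · exact absurd h h1
      · exact Or.inr ⟨i, mem_univ _, h⟩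
  have hWb : insert ib ((univ : Finset κ).map f) = univ.erase ia := by
    ext x
    rw [mem_insert, mem_map, mem_erase]
    constructor
    · rintro (rfl | ⟨i, _, rfl⟩)
      · exact ⟨hab.symm, mem_univ _⟩
      · exact ⟨hfa i, mem_univ _⟩
    · rintro ⟨h1, _⟩
      rcases hall x with h | h | ⟨i, h⟩
      · exact absurd h h1
      · exact Or.inl h
      · exact Or.inr ⟨i, mem_univ _, h⟩
  have hz : ∀ R, R ⊆ (univ : Finset κ).map f → ∀ t, PhiC S j Psi R t = 0 := by
    intro R hR t
    rcases eq_empty_or_nonempty R with rfl | hR0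
    · exact phiC_empty hS (fun s => (hPsi ∅).lev s) t
    · have hdis : Disjoint R ({ia, ib} : Finset I) := by
        rw [disjoint_left]
        intro x hx hx'
        obtain ⟨i, _, rfl⟩ := mem_map.1 (hR hx)
        rw [mem_insert, mem_singleton] at hx'
        rcases hx' with h | h
        · exact hfa i h
        · exact hfb i h
      apply phiC_of_mn hS hdis
      apply hmn R ∅ (subset_univ _) (empty_subset _) (disjoint_empty_right _) hR0
      rw [ix_of_disjoint hdis, ← hj, ← card_univ, ← card_map f]
      exact card_le_card hR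
  set U : Uni l κ G V1 := uniOf S j del Psi f ia ThB with hU
  set U' : Uni l κ G V1 := uniOf S j del Psi f ib ThA with hU'
  have hcoc : ∀ P, ∀ s t, Psi P (s * t) = Psi P s + S.tw (chiC chi0 del P) s (Psi P t) :=
    fun P => (hPsi P).coc
  have hUA : Uni.IsA S.ac U := uniOf_isA hS hj hfa (hst.mono (subset_univ _)) hC.del_hom
    (fun P _ => hcoc P) hz (hWa ▸ hB')
  have hUA' : Uni.IsA S.ac U' := uniOf_isA hS hj hfb (hst.mono (subset_univ _)) hC.del_hom
    (fun P _ => hcoc P) hz (hWb ▸ hA)
  have hUt : U.TFU S := uniOf_tf hS (fun P _ => (hPsi P).tf) hBt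
  have hUt' : U'.TFU S := uniOf_tf hS (fun P _ => (hPsi P).tf) hAt
  have hd : ∀ i s, U.dl i s = U'.dl i s := fun _ _ => rfl
  have hnu : (∅ : Finset κ) ≠ univ := by
    intro hh
    have := congrArg card hh
    rw [card_empty, card_univ, hj] at this
    omega
  have hU0 : ∀ s, U.Phi ∅ s = -bet ia s := by
    intro s
    rw [hU, uniOf_ne hnu, map_empty, insert_empty_eq]
    exact hPa s
  have hU0' : ∀ s, U'.Phi ∅ s = -bet ib s := by
    intro s
    rw [hU', uniOf_ne hnu, map_empty, insert_empty_eq]
    exact hPb s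
  -- H7
  have hH7 : ∀ (R : Finset I), R.Nonempty → R.card ≤ j → ∀ i, i ∉ R → ∀ e,
      ∀ s ∈ S.D (pl i e), PhiC S j Psi R s = 0 := by
    intro R hR0 hRj i hi e
    obtain ⟨c, hc⟩ := hcol i e
    exact phiC_zero_on_D hS hC hst hPsi' (subset_univ _) hR0 hRj hi (mem_univ _) e
      (fun T hT => hc T ((card_le_card hT).trans hRj) (fun h => hi (hT h)))
  have hloc0 : ∀ v (c : G → V1), (∀ s ∈ S.D v, c s = 0) → S.loc v c = 0 := by
    intro v c hc
    unfold Sys.loc
    rw [hc _ (hS.sg_mem v), hc _ (hS.phi_mem v)]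
    rfl
  have hrec := (hS.recip2 (U.cc S.e U') (Uni.cc_coc2 hS hUA hUA' hd hUt hUt')).2
  rw [sum_two_dir hS hC hab] at hrec
  · -- the places of `ia`
    have hva : ∀ e, S.inv (pl ia e) (U.cc S.e U') =
        S.se * S.e (ThA (S.phi (pl ia e))) (bet ia (S.sg (pl ia e))) := by
      intro e
      rw [Uni.inv_cc_triv hS hUA hUA' hd hUt hUt'
        (fun i s hs => hC.del_D ia e (f i) (hfa i) s hs)]
      rw [sum_eq_single ∅]
      · have e1 : S.loc (pl ia e) (U'.Phi ∅ᶜ) = (0, ThA (S.phi (pl ia e))) := by
          unfold Sys.loc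
          rw [compl_empty, hU', uniOf_univ, hA0 _ (hC.good ia e)]
        have e2 : S.loc (pl ia e) (U.Phi ∅) =
            (-bet ia (S.sg (pl ia e)), -bet ia (S.phi (pl ia e))) := by
          unfold Sys.loc
          rw [hU0, hU0]
        rw [e1, e2, hS.sy_split _ (hC.good ia e) (hC.split ia e), card_empty, pow_zero, one_mul,
          map_zero, zero_sub, map_neg, LinearMap.neg_apply, neg_neg, hS.e_symm]
      · intro T _ hT
        have h1 : Tᶜ ≠ univ := by
          rwa [Ne, compl_eq_univ_iff]
        rw [hloc0 _ (U'.Phi Tᶜ), map_zero, mul_zero]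
        intro s hs
        rw [hU', uniOf_ne h1]
        refine hH7 _ (insert_nonempty _ _) (up_card_le hj hfb h1) ia ?_ e s hs
        rw [mem_insert, not_or]
        exact ⟨hab, notMem_map hfa _⟩
      · intro hh
        exact absurd (mem_univ _) hh
    have hvb : ∀ e, S.inv (pl ib e) (U.cc S.e U') =
        -((-1) ^ j * S.e (ThB (S.phi (pl ib e))) (bet ib (S.sg (pl ib e)))) := by
      intro e
      rw [Uni.inv_cc_triv hS hUA hUA' hd hUt hUt'
        (fun i s hs => hC.del_D ib e (f i) (hfb i) s hs)]
      rw [sum_eq_single univ]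
      · have e1 : S.loc (pl ib e) (U.Phi univ) = (0, ThB (S.phi (pl ib e))) := by
          unfold Sys.loc
          rw [hU, uniOf_univ, hB0 _ (hC.good ib e)]
        have e2 : S.loc (pl ib e) (U'.Phi univᶜ) =
            (-bet ib (S.sg (pl ib e)), -bet ib (S.phi (pl ib e))) := by
          unfold Sys.loc
          rw [compl_univ, hU0', hU0']
        rw [e1, e2, hS.sy_split _ (hC.good ib e) (hC.split ib e), card_univ, hj, map_zero,
          LinearMap.zero_apply, sub_zero, map_neg, mul_neg]
      · intro T _ hT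
        rw [hloc0 _ (U.Phi T), map_zero, LinearMap.zero_apply, mul_zero]
        intro s hs
        rw [hU, uniOf_ne hT]
        refine hH7 _ (insert_nonempty _ _) (up_card_le hj hfa hT) ib ?_ e s hs
        rw [mem_insert, not_or]
        exact ⟨hab.symm, notMem_map hfb _⟩
      · intro hh
        exact absurd (mem_univ _) hh
    rw [hva, hva, hvb, hvb] at hrec
    rw [Fintype.sum_bool, Fintype.sum_bool]
    linear_combination hrec
  · intro v hva hvb
    by_cases hv : ∃ i e, v = pl i e
    · obtain ⟨i, e, rfl⟩ := hv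
      obtain ⟨m, rfl⟩ : ∃ m, f m = i := by
        rcases hall i with rfl | rfl | h
        · exact absurd rfl (hva e)
        · exact absurd rfl (hvb e)
        · exact h
      have hfin : ∀ m', m' ≠ m → f m' ≠ f m := fun m' h h' => h (f.injective h')
      refine Uni.inv_cc_dir hS hUA' (i := m)
        (fun m' hm' s hs => hC.del_D (f m) e (f m') (hfin m' hm') s hs) ?_ ?_
      · intro T hT s hs
        have hTu : T ≠ univ := fun h => hT (h ▸ mem_univ _)
        rw [hU, uniOf_ne hTu]
        refine hH7 _ (insert_nonempty _ _) (up_card_le hj hfa hTu) (f m) ?_ e s hs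
        rw [mem_insert, not_or]
        refine ⟨hfa m, fun hh => hT ?_⟩
        obtain ⟨m', hm', h⟩ := mem_map.1 hh
        rwa [← f.injective h]
      · intro T hT s hs
        have hTu : T ≠ univ := fun h => hT (h ▸ mem_univ _)
        rw [hU', uniOf_ne hTu]
        refine hH7 _ (insert_nonempty _ _) (up_card_le hj hfb hTu) (f m) ?_ e s hs
        rw [mem_insert, not_or]
        refine ⟨hfb m, fun hh => hT ?_⟩
        obtain ⟨m', hm', h⟩ := mem_map.1 hh
        rwa [← f.injective h]
    · push Not at hv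
      rcases hB.other v hv with ⟨hdel, hbet⟩ | ⟨hg, hc0, hdel, hbet⟩
      · rw [Uni.inv_cc_triv hS hUA hUA' hd hUt hUt' (fun i s hs => hdel (f i) s hs)]
        refine sum_eq_zero fun T _ => ?_
        suffices hsy : S.sy v (S.loc v (U.Phi T)) (S.loc v (U'.Phi Tᶜ)) = 0 by
          rw [hsy, mul_zero]
        have hcob : ∀ i, ∃ z, S.loc v (fun s => -bet i s) = S.cob v z := by
          intro i
          obtain ⟨z, hz⟩ := hbet i
          refine ⟨-z, ?_⟩
          unfold Sys.loc Sys.cob
          beta_reduce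
          rw [hz _ (hS.sg_mem v), hz _ (hS.phi_mem v), map_neg, map_neg]
          ext <;> simp <;> abel
        have hcp : ∀ i, S.loc v (fun s => -bet i s) ∈ S.CP v := by
          intro i
          refine ⟨fun s => -bet i s, ⟨?_, ?_⟩, rfl⟩
          · exact ((hB.coc i).1.comp (fun x => -x)).on _
          · intro s _ t _
            beta_reduce
            rw [(hB.coc i).2 s t, map_neg]
            abel
        by_cases hT : T = ∅
        · subst hT
          have e1 : U.Phi ∅ = fun s => -bet ia s := funext hU0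
          rw [compl_empty, e1, hU', uniOf_univ]
          have h1 : S.loc v ThA ∈ S.CP v := hA.cp hAt hdel
          rw [hS.sy_comm v _ (hcp ia) _ h1]
          obtain ⟨z, hz⟩ := hcob ia
          rw [hz, hS.sy_cob v _ h1, mul_zero, neg_zero]
        · by_cases hTu : T = univ
          · subst hTu
            have e1 : U'.Phi ∅ = fun s => -bet ib s := funext hU0'
            rw [compl_univ, e1, hU, uniOf_univ]
            have h1 : S.loc v ThB ∈ S.CP v := hB'.cp hBt hdel
            obtain ⟨z, hz⟩ := hcob ib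
            rw [hz, hS.sy_cob v _ h1]
          · have hTc : Tᶜ ≠ univ := by
              rwa [Ne, compl_eq_univ_iff]
            rw [hU, hU', uniOf_ne hTu, uniOf_ne hTc]
            refine hS.isot chi0 hC.chi0_hom v _ ?_ _ ?_
            · exact phiC_mem_Wl hS hst hPsi' (subset_univ _) (up_card_le hj hfa hTu) hdel
            · exact phiC_mem_Wl hS hst hPsi' (subset_univ _) (up_card_le hj hfb hTc) hdel
      · -- all unramified
        have hsel0 : ∀ X, Psi X (S.sg v) = 0 := by
          intro X
          obtain ⟨Q, hQ⟩ := (hPsi X).loc v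
          rw [hQ _ (hS.sg_mem v)]
          apply Sys.dl_sg_zero hS hg
          unfold chiC
          rw [hc0, sum_eq_zero fun i _ => hdel i, add_zero]
        have hphi0 : ∀ R, PhiC S j Psi R (S.sg v) = 0 := by
          intro R
          rcases eq_empty_or_nonempty R with rfl | hR
          · exact phiC_empty hS (fun s => (hPsi ∅).lev s) _
          · exact phiC_sg hS hR (fun T _ => hsel0 T)
        refine Uni.inv_cc_unr hS hUA hUA' hd hUt hUt' hg (fun i => hdel (f i)) ?_ ?_
        · intro T
          by_cases hT : T = univ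
          · rw [hT, hU, uniOf_univ]
            exact hB0 v hg
          · rw [hU, uniOf_ne hT]
            exact hphi0 _
        · intro T
          by_cases hT : T = univ
          · rw [hT, hU', uniOf_univ]
            exact hA0 v hg
          · rw [hU', uniOf_ne hT]
            exact hphi0 _

end

end Pool.Agent.SmL
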