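import Pool.Agent.Lib.SmL.H.Coc

/-!
SMITH-L, block H, H2: minimality and the functions `Phi_R`.
-/

set_option autoImplicit false

open Finset

namespace Pool.Agent.SmL

section

variable {l : ℕ} {A G V V1 Pl I : Type*} [CommRing A] [Group G] [AddCommGroup V] [Module A V]
  [DistribMulAction G V] [AddCommGroup V1] [Module (ZMod l) V1] [DecidableEq I]
  {S : Sys l A G V V1 Pl}

/-- Powers of `lam` add up. -/
theorem pow_smul_smul (a b : ℕ) (x : V) : S.lam ^ a • (S.lam ^ b • x) = S.lam ^ (a + b) • x := by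
  rw [smul_smul, pow_add]

/-- Element killed by `lam^j`: also by higher powers. -/
theorem lev_le {j a : ℕ} (h : j ≤ a) {x : V} (hx : S.lam ^ j • x = 0) : S.lam ^ a • x = 0 := by
  obtain ⟨c, rfl⟩ := Nat.exists_eq_add_of_le h
  rw [add_comm, ← pow_smul_smul, hx, smul_zero]

/-- A family killed by `lam^j`: all the alternating sums with a power at least `j` vanish. -/
theorem alt_lev {W : Finset I} {j : ℕ} {Psi : Finset I → G → V}
    (hlev : ∀ P, P ⊆ W → ∀ s, S.lam ^ j • Psi P s = 0) {U P : Finset I} (hU : U ⊆ W)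
    (hP : P ⊆ W) {a : ℕ} (ha : j ≤ a) (s : G) :
    alt U (fun T => S.lam ^ a • Psi T s) P = 0 := by
  have : alt U (fun T => S.lam ^ a • Psi T s) P = alt U (fun _ => (0 : V)) P := by
    apply alt_congr
    intro T hT
    exact lev_le ha (hlev _ (Finset.union_subset hP (hT.trans hU)) s)
  rw [this, alt_zero]

theorem ix_mono {σ U U' : Finset I} (h : U' ⊆ U) : ix σ U' ≤ ix σ U := by
  have hc := Finset.card_le_card h
  by_cases h1 : Disjoint U σ
  · rw [ix_of_disjoint h1, ix_of_disjoint (h1.mono_left h)]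
    exact hc
  · rw [ix_of_not h1]
    by_cases h2 : Disjoint U' σ
    · rw [ix_of_disjoint h2]
      have : U' ≠ U := fun e => h1 (e ▸ h2)
      have := Finset.card_lt_card (Finset.ssubset_iff_subset_ne.2 ⟨h, this⟩)
      omega
    · rw [ix_of_not h2]; omega

theorem ix_le_card (σ U : Finset I) : ix σ U ≤ U.card := by
  unfold ix
  split_ifs <;> omega

theorem card_le_ix (σ U : Finset I) : U.card ≤ ix σ U + 1 := by
  unfold ix
  split_ifs <;> omega

/-- A subface with a prescribed smaller index. -/
theorem exists_sub_ix {σ U : Finset I} {n : ℕ} (h : n ≤ ix σ U) :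
    ∃ U', U' ⊆ U ∧ ix σ U' = n := by
  -- by induction on the number of elements
  induction U using Finset.induction_on with
  | empty =>
    refine ⟨∅, Finset.Subset.refl _, ?_⟩
    have : ix σ (∅ : Finset I) = 0 := by rw [ix_of_disjoint (Finset.disjoint_empty_left _)]; rfl
    omega
  | insert i U hi ih =>
    by_cases h1 : n ≤ ix σ U
    · obtain ⟨U', h2, h3⟩ := ih h1
      exact ⟨U', h2.trans (Finset.subset_insert i U), h3⟩
    · push Not at h1
      refine ⟨insert i U, Finset.Subset.refl _, ?_⟩
      have h2 : ix σ (insert i U) ≤ ix σ U + 1 := by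
        have h3 := Finset.card_insert_of_notMem hi
        by_cases h4 : Disjoint (insert i U) σ
        · rw [ix_of_disjoint h4, ix_of_disjoint (h4.mono_left (Finset.subset_insert i U)), h3]
        · rw [ix_of_not h4, h3]
          have := card_le_ix σ U
          omega
      omega

/-- Minimality of all faces gives vanishing for all larger indices. -/
theorem mn_pow {W σ : Finset I} {j : ℕ} {Psi : Finset I → G → V}
    (hlev : ∀ P, P ⊆ W → ∀ s, S.lam ^ j • Psi P s = 0) (hm : MnAll S W σ j Psi)
    {U P : Finset I} (hU : U ⊆ W) (hP : P ⊆ W) (hUP : Disjoint U P) {a : ℕ}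
    (ha : j ≤ ix σ U + a) (s : G) : alt U (fun T => S.lam ^ a • Psi T s) P = 0 := by
  by_cases hja : j ≤ a
  · exact alt_lev hlev hU hP hja s
  · push Not at hja
    obtain ⟨U', hU'U, hU'c⟩ := exists_sub_ix (σ := σ) (U := U) (n := j - a) (by omega)
    apply alt_eq_zero_of_subset hU'U
    intro T hT
    have hTU : T ⊆ U := hT.trans Finset.sdiff_subset
    have h1 : Disjoint U' (P ∪ T) := by
      rw [Finset.disjoint_union_right]
      refine ⟨hUP.mono_left hU'U, ?_⟩
      rw [Finset.disjoint_left]
      intro x hx hxT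
      exact (Finset.mem_sdiff.1 (hT hxT)).2 hx
    have h0 : U'.Nonempty := by
      rw [Finset.nonempty_iff_ne_empty]
      rintro rfl
      have := ix_le_card σ (∅ : Finset I)
      rw [Finset.card_empty] at this
      omega
    have h2 := hm U' (P ∪ T) (hU'U.trans hU) (Finset.union_subset hP (hTU.trans hU)) h1
      h0 (by omega) s
    have h3 : j - ix σ U' = a := by omega
    rwa [h3] at h2

/-- Minimality of all faces gives (*) for all faces. -/
theorem star_of_min {W σ : Finset I} {j : ℕ} {Psi : Finset I → G → V}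
    (hlev : ∀ P, P ⊆ W → ∀ s, S.lam ^ j • Psi P s = 0) (hm : MnAll S W σ j Psi) :
    Star S W j Psi := by
  intro U P hU hP hUP a ha s
  apply mn_pow hlev hm hU hP hUP
  have := card_le_ix σ U
  omega

/-- The minimality of the faces disjoint from `σ` gives the minimality of the faces which meet `σ`
in exactly one direction. -/
theorem mn_of_one {W σ : Finset I} {j : ℕ} {Psi : Finset I → G → V}
    (hlev : ∀ P, P ⊆ W → ∀ s, S.lam ^ j • Psi P s = 0)
    {U P : Finset I} (hU : U ⊆ W) (hP : P ⊆ W) (hUP : Disjoint U P) {i : I} (hi : i ∈ U)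
    (hiσ : i ∈ σ) (h1 : Disjoint (U.erase i) σ)
    (hm : ∀ P', P' ⊆ W → Disjoint (U.erase i) P' → (U.erase i).Nonempty → Mn S σ j Psi (U.erase i) P') :
    Mn S σ j Psi U P := by
  intro s
  have hnd : ¬ Disjoint U σ := fun h => (Finset.disjoint_left.1 h) hi hiσ
  have hiP : i ∉ P := fun h => (Finset.disjoint_left.1 hUP) hi h
  have hc : (U.erase i).card = U.card - 1 := Finset.card_erase_of_mem hi
  have he : ix σ (U.erase i) = ix σ U := by rw [ix_of_disjoint h1, ix_of_not hnd, hc]
  rw [alt_of_mem hi]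
  by_cases h0 : (U.erase i).Nonempty
  · have e1 := hm P hP (hUP.mono_left (Finset.erase_subset i U)) h0 s
    have e2 := hm (insert i P) (Finset.insert_subset (hU hi) hP) (by
      rw [Finset.disjoint_insert_right]
      exact ⟨Finset.notMem_erase i U, hUP.mono_left (Finset.erase_subset i U)⟩) h0 s
    rw [he] at e1 e2
    rw [e1, e2, sub_zero]
  · rw [Finset.not_nonempty_iff_eq_empty] at h0
    have h2 : ix σ U = 0 := by rw [← he, h0, ix_of_disjoint (Finset.disjoint_empty_left _)]; rfl
    rw [h0, h2, Nat.sub_zero, alt_empty, alt_empty, hlev P hP, hlev (insert i P)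
      (Finset.insert_subset (hU hi) hP), sub_zero]

/-- The level condition is part of (*). -/
theorem Star.lev {W : Finset I} {j : ℕ} {Psi : Finset I → G → V} (h : Star S W j Psi)
    {P : Finset I} (hP : P ⊆ W) (s : G) : S.lam ^ (j + 1) • Psi P s = 0 := by
  have := h ∅ P (Finset.empty_subset _) hP (Finset.disjoint_empty_left _) (j + 1) (by simp) s
  simpa using this

theorem Star.mono {W W' : Finset I} (hW : W' ⊆ W) {j : ℕ} {Psi : Finset I → G → V}
    (h : Star S W j Psi) : Star S W' j Psi :=
  fun U P hU hP hUP a ha s => h U P (hU.trans hW) (hP.trans hW) hUP a ha s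

theorem MnAll.mono {W W' σ : Finset I} (hW : W' ⊆ W) {j : ℕ} {Psi : Finset I → G → V}
    (h : MnAll S W σ j Psi) : MnAll S W' σ j Psi :=
  fun U P hU hP hUP h0 hj => h U P (hU.trans hW) (hP.trans hW) hUP h0 hj

/-- `Phi_R` at the position `∅`. -/
theorem iota_phiC (hS : S.Ok) {W : Finset I} {j : ℕ} {Psi : Finset I → G → V}
    (h : Star S W j Psi) {R : Finset I} (hR : R ⊆ W) (hj : R.card ≤ j) (s : G) :
    S.iota (PhiC S j Psi R s) = alt R (fun T => S.lam ^ (j - R.card) • Psi T s) ∅ := by
  unfold PhiC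
  apply Sys.iota_un hS
  rw [← alt_smulA]
  have := h R ∅ hR (Finset.empty_subset _) (Finset.disjoint_empty_right _) (j - R.card + 1)
    (by omega) s
  rw [← this]
  congr 1
  funext T
  rw [smul_smul, ← pow_succ']

/-- `Phi_R` does not depend on the position of the face. -/
theorem iota_phiC_pos (hS : S.Ok) {W : Finset I} {j : ℕ} {Psi : Finset I → G → V}
    (h : Star S W j Psi) {R P : Finset I} (hR : R ⊆ W) (hP : P ⊆ W) (hRP : Disjoint R P)
    (hj : R.card ≤ j) (s : G) :
    S.iota (PhiC S j Psi R s) = alt R (fun T => S.lam ^ (j - R.card) • Psi T s) P := by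
  induction P using Finset.induction_on with
  | empty => exact iota_phiC hS h hR hj s
  | insert i P hi ih =>
    have hiR : i ∉ R := fun hc => (Finset.disjoint_left.1 hRP) hc (Finset.mem_insert_self i P)
    have hPW : P ⊆ W := (Finset.subset_insert i P).trans hP
    have h1 := ih hPW (hRP.mono_right (Finset.subset_insert i P))
    have hiW : i ∈ W := hP (Finset.mem_insert_self i P)
    have h2 := h (insert i R) P (Finset.insert_subset hiW hR) hPW (by
      rw [Finset.disjoint_insert_left]
      exact ⟨hi, hRP.mono_right (Finset.subset_insert i P)⟩) (j - R.card) (by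
      rw [Finset.card_insert_of_notMem hiR]; omega) s
    rw [alt_insert hiR, sub_eq_zero] at h2
    rw [h1, h2]

/-- If the alternating sum of index `|R|` vanishes then `Phi_R = 0`. -/
theorem phiC_of_alt (hS : S.Ok) {j : ℕ} {Psi : Finset I → G → V} {R : Finset I} {s : G}
    (h : alt R (fun T => S.lam ^ (j - R.card) • Psi T s) ∅ = 0) : PhiC S j Psi R s = 0 := by
  unfold PhiC
  rw [h]
  exact Sys.un_zero hS

/-- If the face is disjoint from the special directions and minimal then `Phi_R = 0`. -/
theorem phiC_of_mn (hS : S.Ok) {σ : Finset I} {j : ℕ} {Psi : Finset I → G → V} {R : Finset I}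
    (hR : Disjoint R σ) (h : Mn S σ j Psi R ∅) (s : G) : PhiC S j Psi R s = 0 := by
  have := h s
  rw [ix_of_disjoint hR] at this
  exact phiC_of_alt hS this

theorem phiC_empty (hS : S.Ok) {j : ℕ} {Psi : Finset I → G → V}
    (hlev : ∀ s, S.lam ^ j • Psi ∅ s = 0) (s : G) : PhiC S j Psi ∅ s = 0 := by
  unfold PhiC
  simp only [alt_empty, Finset.card_empty, Nat.sub_zero, hlev s]
  exact Sys.un_zero hS

/-- Values at an element where the family is constant. -/
theorem phiC_sg (hS : S.Ok) {j : ℕ} {Psi : Finset I → G → V} {R : Finset I} (hR : R.Nonempty)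
    {s : G} {c : V} (hc : ∀ T, T ⊆ R → Psi T s = c) : PhiC S j Psi R s = 0 := by
  unfold PhiC
  have : alt R (fun T => S.lam ^ (j - R.card) • Psi T s) ∅ =
      alt R (fun _ => S.lam ^ (j - R.card) • c) ∅ := by
    apply alt_congr
    intro T hT
    rw [Finset.empty_union, hc T hT]
  rw [this, alt_const hR]
  exact Sys.un_zero hS

/-- `NN`-finiteness of finite families. -/
theorem tf_family (hS : S.Ok) {α : Type*} {J : Type*} (s : Finset J) (f : J → G → α)
    (hf : ∀ i ∈ s, S.TF (f i)) : ∃ N ∈ S.NN, ∀ i ∈ s, ∀ g, ∀ n ∈ N, f i (g * n) = f i g := by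
  classical
  induction s using Finset.induction_on with
  | empty => exact ⟨⊤, hS.top_mem, by simp⟩
  | insert i s hi ih =>
    obtain ⟨N, hN, h1⟩ := ih (fun k hk => hf k (Finset.mem_insert_of_mem hk))
    obtain ⟨N', hN', h2⟩ := hf i (Finset.mem_insert_self i s)
    refine ⟨N ⊓ N', hS.inf_mem N hN N' hN', ?_⟩
    intro k hk g n hn
    rcases Finset.mem_insert.1 hk with rfl | hk
    · exact h2 g n hn.2
    · exact h1 k hk g n hn.1

theorem tf_alt (hS : S.Ok) {M : Type*} [AddCommGroup M] (U P : Finset I) (f : Finset I → G → M)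
    (hf : ∀ T, T ⊆ U → S.TF (f (P ∪ T))) : S.TF (fun s => alt U (fun T => f T s) P) := by
  obtain ⟨N, hN, h⟩ := tf_family hS U.powerset (fun T => f (P ∪ T))
    (fun T hT => hf T (Finset.mem_powerset.1 hT))
  refine ⟨N, hN, fun s n hn => ?_⟩
  apply alt_congr
  intro T hT
  exact h T (Finset.mem_powerset.2 hT) s n hn

theorem phiC_tf (hS : S.Ok) {j : ℕ} {Psi : Finset I → G → V} {R : Finset I}
    (hf : ∀ T, T ⊆ R → S.TF (Psi T)) : S.TF (PhiC S j Psi R) := by
  unfold PhiC
  apply Sys.TF.comp (f := fun s => alt R (fun T => S.lam ^ (j - R.card) • Psi T s) ∅) ?_ S.un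
  apply tf_alt hS R ∅ (fun T s => S.lam ^ (j - R.card) • Psi T s)
  intro T hT
  rw [Finset.empty_union]
  exact (hf T hT).comp (fun x => S.lam ^ (j - R.card) • x)

/-- H2: the cocycle relation of `Phi_R`. -/
theorem phiC_mul (hS : S.Ok) {W : Finset I} {j : ℕ} {chi0 : G → ZMod l} {del : I → G → ZMod l}
    {Psi : Finset I → G → V} (h : Star S W j Psi)
    (hc : ∀ P, P ⊆ W → ∀ s t, Psi P (s * t) = Psi P s + S.tw (chiC chi0 del P) s (Psi P t))
    {R : Finset I} (hR : R ⊆ W) (hj : R.card ≤ j) (s t : G) :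
    PhiC S j Psi R (s * t) = PhiC S j Psi R s +
      S.ac s (∑ T ∈ R.powerset, pdel del T s • PhiC S j Psi (R \ T) t) := by
  apply hS.iota_inj
  rw [iota_phiC hS h hR hj]
  have h1 := alt_cocycle hS chi0 del (fun T g => S.lam ^ (j - R.card) • Psi T g) s t R ∅
    (Finset.disjoint_empty_right _) (by
      intro T hT
      simp only [Finset.empty_union]
      rw [hc T (hT.trans hR) s t, smul_add, Sys.tw_smul hS])
  rw [h1, map_add, iota_phiC hS h hR hj]
  congr 1
  have h2 : (∑ T ∈ R.powerset, (S.lam ^ T.card * pdelA S del T s) •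
      alt (R \ T) (fun Q => S.lam ^ (j - R.card) • Psi Q t) (∅ ∪ T)) =
      S.iota (∑ T ∈ R.powerset, pdel del T s • PhiC S j Psi (R \ T) t) := by
    rw [map_sum]
    apply Finset.sum_congr rfl
    intro T hT
    have hTR : T ⊆ R := Finset.mem_powerset.1 hT
    have hcard : (R \ T).card = R.card - T.card := Finset.card_sdiff_of_subset hTR
    have hle : T.card ≤ R.card := Finset.card_le_card hTR
    rw [← pdelA_iota hS, iota_phiC_pos hS h (Finset.sdiff_subset.trans hR) (hTR.trans hR)
      Finset.sdiff_disjoint (by omega) t, Finset.empty_union, mul_comm, mul_smul, ← alt_smulA]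
    congr 2
    funext Q
    rw [pow_smul_smul]
    congr 2
    omega
  rw [h2]
  exact Sys.tw_iota hS _ _ _

end

end Pool.Agent.SmL
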