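import Pool.Agent.Lib.SmL.H.Face
import Pool.Agent.Lib.SmL.H.Th

/-!
SMITH-L, block H, H3, H4, H6: the zero sum theorem and the top sum theorem.
-/

set_option autoImplicit false

open Finset

namespace Pool.Agent.SmL

section

variable {l : ℕ} {A G V V1 Pl I : Type*} [CommRing A] [Group G] [AddCommGroup V] [Module A V]
  [DistribMulAction G V] [AddCommGroup V1] [Module (ZMod l) V1] [DecidableEq I]
variable {S : Sys l A G V V1 Pl}
variable {ex : I → ZMod l} {chi0 : G → ZMod l} {del : I → G → ZMod l} {j : ℕ} {W : Finset I}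
  {Psi hat : Finset I → G → V} {Q : Finset I → Pl → V}

/-- The global cochain of a face of dimension at least `j + 1` is `NN`-finite. -/
theorem GC_tf (hS : S.Ok)
    (hd : ∀ X, X ⊆ W → S.LiftData (chiC chi0 del X) (Psi X) (hat X) (Q X)) {R P : Finset I}
    (hR : R ⊆ W) (hP : P ⊆ W) : S.TF (GC S hat R P) := by
  unfold GC
  apply Sys.TF.comp (f := fun s => alt R (fun X => hat X s) P) ?_ S.un
  apply tf_alt hS R P hat
  intro T hT
  exact (hd _ (Finset.union_subset hP (hT.trans hR))).tf

/-- The global cochain of a face of dimension at least `j + 2` is a cocycle. -/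
theorem GC_hom (hS : S.Ok) (hst : Star S W j Psi)
    (hd : ∀ X, X ⊆ W → S.LiftData (chiC chi0 del X) (Psi X) (hat X) (Q X)) {R P : Finset I}
    (hR : R ⊆ W) (hP : P ⊆ W) (hRP : Disjoint R P) (hj : j + 2 ≤ R.card) :
    S.CocG (GC S hat R P) := by
  have h2 : ∀ s, S.lam • alt R (fun X => hat X s) P = 0 := fun s =>
    two_hat hst hd hR hP hRP (by omega) s
  refine ⟨GC_tf hS hd hR hP, fun s t => ?_⟩
  apply hS.iota_inj
  change S.iota (S.un _) = S.iota (S.un _ + S.ac s (S.un _))
  rw [map_add, Sys.iota_un hS (h2 _), Sys.iota_un hS (h2 _),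
    ← Sys.tw_of_two hS (chiC chi0 del P) s (h2 t),
    alt_cocycle hS chi0 del hat s t R P hRP (fun T hT =>
      (hd _ (Finset.union_subset hP (hT.trans hR))).coc s t)]
  congr 1
  rw [← Finset.add_sum_erase R.powerset _ (Finset.empty_mem_powerset R)]
  have h3 : ∑ T ∈ R.powerset.erase ∅, (S.lam ^ T.card * pdelA S del T s) •
      alt (R \ T) (fun Q => hat Q t) (P ∪ T) = 0 := by
    apply Finset.sum_eq_zero
    intro T hT
    obtain ⟨hT0, hT1⟩ := Finset.mem_erase.1 hT
    have hTR : T ⊆ R := Finset.mem_powerset.1 hT1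
    have hTpos : 0 < T.card := Finset.card_pos.2 (Finset.nonempty_iff_ne_empty.2 hT0)
    have hcard : (R \ T).card = R.card - T.card := Finset.card_sdiff_of_subset hTR
    have hle : T.card ≤ R.card := Finset.card_le_card hTR
    have hPT : P ∪ T ⊆ W := Finset.union_subset hP (hTR.trans hR)
    have h4 : alt (R \ T) (fun Q => S.lam ^ T.card • hat Q t) (P ∪ T) = 0 := by
      have h5 := hst (R \ T) (P ∪ T) (Finset.sdiff_subset.trans hR) hPT (by
        rw [Finset.disjoint_left]
        intro x hx hx'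
        obtain ⟨h6, h7⟩ := Finset.mem_sdiff.1 hx
        rcases Finset.mem_union.1 hx' with h | h
        · exact (Finset.disjoint_left.1 hRP) h6 h
        · exact h7 h) (T.card - 1) (by omega) t
      rw [← h5]
      apply alt_congr
      intro X hX
      rw [← (hd _ (Finset.union_subset hPT ((hX.trans Finset.sdiff_subset).trans hR))).two t,
        smul_smul, ← pow_succ]
      congr 2
      omega
    rw [mul_comm, mul_smul, ← alt_smulA, h4, smul_zero]
  rw [h3, add_zero]
  simp only [Finset.card_empty, pow_zero, pdelA_empty, mul_one, one_smul, Finset.sdiff_empty,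
    Finset.union_empty]

theorem exists_family (hS : S.Ok) (h0 : S.HomG chi0) (hdel : ∀ i, S.HomG (del i))
    (hPsi : ∀ X, X ⊆ W → S.IsSel (chiC chi0 del X) j (Psi X)) :
    ∃ (hat : Finset I → G → V) (Q : Finset I → Pl → V),
      ∀ X, X ⊆ W → S.LiftData (chiC chi0 del X) (Psi X) (hat X) (Q X) := by
  have h : ∀ X, ∃ (hat : G → V) (Q : Pl → V), X ⊆ W →
      S.LiftData (chiC chi0 del X) (Psi X) hat Q := by
    intro X
    by_cases hX : X ⊆ W
    · obtain ⟨hat, Q, h⟩ := Sys.exists_liftData hS (chiC_hom hS h0 hdel X) (hPsi X hX)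
      exact ⟨hat, Q, fun _ => h⟩
    · exact ⟨0, 0, fun h => absurd h hX⟩
  choose hat Q h using h
  exact ⟨hat, Q, h⟩

/-- `finsum` of an alternating sum. -/
private theorem finsum_alt (U P : Finset I) (f : Finset I → Pl → ZMod l)
    (hf : ∀ T, T ⊆ U → {v | f (P ∪ T) v ≠ 0}.Finite) :
    alt U (fun X => ∑ᶠ v, f X v) P = ∑ᶠ v, alt U (fun X => f X v) P := by
  unfold alt
  rw [finsum_sum_comm U.powerset _ (fun T hT => ?_)]
  · refine Finset.sum_congr rfl fun T _ => ?_
    rcases neg_one_pow_eq_or ℤ T.card with h | h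
    · simp only [h, one_smul]
    · simp only [h, neg_smul, one_smul, finsum_neg_distrib]
  · refine (hf T (Finset.mem_powerset.1 hT)).subset fun v hv hn => hv ?_
    change (-1 : ℤ) ^ T.card • f (P ∪ T) v = 0
    rw [hn, smul_zero]

/-- The alternating sum over a face of the pairings in terms of global symbols. -/
theorem face_sum (hS : S.Ok) {pl : I → Bool → Pl} (hC : CubeOk S ex chi0 del pl)
    (hst : Star S W j Psi)
    (hd : ∀ X, X ⊆ W → S.LiftData (chiC chi0 del X) (Psi X) (hat X) (Q X)) {U P : Finset I}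
    (hU : U ⊆ W) (hP : P ⊆ W) (hUP : Disjoint U P) (hj : j + 2 ≤ U.card)
    {bet : I → G → V1} (hB : BetOk S chi0 del pl bet) (b0 : G → V1)
    (hb : ∀ X, X ⊆ W → S.IsSel1 (chiC chi0 del X) (bC b0 bet X)) :
    alt U (fun X => S.CT (chiC chi0 del X) (Psi X) (bC b0 bet X)) P =
      ∑ᶠ v, (S.sy v (S.loc v (GC S hat U P)) (S.loc v (bC b0 bet (P ∪ U))) -
      ∑ i ∈ U, S.sy v (S.loc v (GC S hat (U.erase i) P)) (S.loc v (bet i))) := by
  have hchi : ∀ X, S.HomG (chiC chi0 del X) := chiC_hom hS hC.chi0_hom hC.del_hom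
  have hX : ∀ T, T ⊆ U → P ∪ T ⊆ W := fun T hT => Finset.union_subset hP (hT.trans hU)
  rw [alt_congr (g := fun X => ∑ᶠ v, S.sy v (S.xi (chiC chi0 del X) (hat X) (Q X) v)
        (S.loc v (bC b0 bet X))) (fun T hT =>
    Sys.CT_eq hS (hchi _) (hd _ (hX T hT)) (hb _ (hX T hT))),
    finsum_alt U P _ (fun T hT => (hd _ (hX T hT)).supp hS (hchi _) (hb _ (hX T hT)).1)]
  apply finsum_congr
  intro v
  exact face_place hS hC hB hst hd hU hP hUP hj b0 hb v

/-- H3: the zero sum theorem for faces of dimension `j + 3` (or more). -/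
theorem zero_sum (hS : S.Ok) {pl : I → Bool → Pl} (hC : CubeOk S ex chi0 del pl)
    (hst : Star S W j Psi) (hPsi : ∀ X, X ⊆ W → S.IsSel (chiC chi0 del X) j (Psi X))
    {U P : Finset I} (hU : U ⊆ W) (hP : P ⊆ W) (hUP : Disjoint U P) (hj : j + 3 ≤ U.card)
    {bet : I → G → V1} (hB : BetOk S chi0 del pl bet) (b0 : G → V1)
    (hb : ∀ X, X ⊆ W → S.IsSel1 (chiC chi0 del X) (bC b0 bet X)) :
    alt U (fun X => S.CT (chiC chi0 del X) (Psi X) (bC b0 bet X)) P = 0 := by
  obtain ⟨hat, Q, hd⟩ := exists_family hS hC.chi0_hom hC.del_hom hPsi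
  rw [face_sum hS hC hst hd hU hP hUP (by omega) hB b0 hb]
  have hG : S.CocG (GC S hat U P) := GC_hom hS hst hd hU hP hUP (by omega)
  have hGi : ∀ i ∈ U, S.CocG (GC S hat (U.erase i) P) := fun i hi =>
    GC_hom hS hst hd ((Finset.erase_subset i U).trans hU) hP
      (hUP.mono_left (Finset.erase_subset i U)) (by rw [Finset.card_erase_of_mem hi]; omega)
  have hbU := (hb _ (Finset.union_subset hP hU)).1
  have hw : ∀ i, S.CocG (bet i) := hB.coc
  have hfin : ∀ i ∈ U, {v | S.sy v (S.loc v (GC S hat (U.erase i) P))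
      (S.loc v (bet i)) ≠ 0}.Finite := fun i hi =>
    Sys.sy_supp hS (hGi i hi) (hw i)
  have hfin2 : {v | ∑ i ∈ U, S.sy v (S.loc v (GC S hat (U.erase i) P))
      (S.loc v (bet i)) ≠ 0}.Finite := by
    refine (Set.Finite.biUnion (Finset.finite_toSet U) hfin).subset ?_
    intro v hv
    by_contra hn
    apply hv
    apply Finset.sum_eq_zero
    intro i hi
    by_contra h
    exact hn (Set.mem_biUnion (Finset.mem_coe.2 hi) h)
  rw [finsum_sub_distrib (Sys.sy_supp hS hG hbU) hfin2, finsum_sum_comm U _ hfin,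
    hS.recip _ _ hG hbU, zero_sub, neg_eq_zero]
  exact Finset.sum_eq_zero fun i hi => hS.recip _ _ (hGi i hi) (hw i)

/-- H6, first part: transport of the value to the last vertex. -/
theorem value_const [Fintype I] (hS : S.Ok) {pl : I → Bool → Pl} (hC : CubeOk S ex chi0 del pl)
    (hst : Star S univ j Psi) (hPsi : ∀ X, S.IsSel (chiC chi0 del X) j (Psi X))
    (hj : j + 3 ≤ Fintype.card I) {bet : I → G → V1} (hB : BetOk S chi0 del pl bet)
    (b0 : G → V1)
    (hb : ∀ X, S.IsSel1 (chiC chi0 del X) (bC b0 bet X)) {f : ZMod l}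
    (hf : ∀ X, X ≠ univ → S.CT (chiC chi0 del X) (Psi X) (bC b0 bet X) = f) :
    S.CT (chiC chi0 del univ) (Psi univ) (bC b0 bet univ) = f := by
  have h := zero_sum hS hC hst (fun X _ => hPsi X) (U := univ) (P := ∅)
    (Finset.Subset.refl _) (Finset.empty_subset _) (Finset.disjoint_empty_right _)
    (by rwa [Finset.card_univ]) hB b0 (fun X _ => hb X)
  have h0 : (univ : Finset I).Nonempty := by
    rw [← Finset.card_pos, Finset.card_univ]; omega
  have h1 : alt univ (fun X => S.CT (chiC chi0 del X) (Psi X) (bC b0 bet X) - f) ∅ = 0 := by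
    rw [alt_sub, h, alt_const h0, sub_zero]
  have h2 : alt univ (fun X => S.CT (chiC chi0 del X) (Psi X) (bC b0 bet X) - f) ∅ =
      (-1 : ℤ) ^ (univ : Finset I).card •
        (S.CT (chiC chi0 del univ) (Psi univ) (bC b0 bet univ) - f) := by
    unfold alt
    rw [Finset.sum_eq_single univ]
    · rw [Finset.empty_union]
    · intro T _ hne
      rw [Finset.empty_union]
      change (-1 : ℤ) ^ T.card • (S.CT (chiC chi0 del T) (Psi T) (bC b0 bet T) - f) = 0
      rw [hf T hne, sub_self, smul_zero]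
    · intro hn
      exact absurd (Finset.mem_powerset_self univ) hn
  rw [h1] at h2
  rcases neg_one_pow_eq_or ℤ (univ : Finset I).card with h3 | h3
  · rw [h3, one_smul] at h2
    exact sub_eq_zero.1 h2.symm
  · rw [h3, neg_smul, one_smul, eq_comm, neg_eq_zero] at h2
    exact sub_eq_zero.1 h2

omit [DecidableEq I] in
/-- The two places of a direction are different. -/
theorem CubeOk.ne {pl : I → Bool → Pl} (hC : CubeOk S ex chi0 del pl) (i : I) :
    pl i false ≠ pl i true := by
  intro h
  have h1 := hC.chi0_sg i false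
  have h2 := hC.chi0_sg i true
  rw [h] at h1
  rw [h1] at h2
  exact hC.ex_ne i (by simpa using h2)

/-- The global sum of the symbols of a function `Th`, unramified at the good places, with the
difference `bet i` is concentrated at the two places of the direction `i`. -/
theorem sum_Th [Fintype I] (hS : S.Ok) {pl : I → Bool → Pl} (hC : CubeOk S ex chi0 del pl)
    {bet : I → G → V1} (hB : BetOk S chi0 del pl bet) (i : I) {Th : G → V1}
    (hcp : ∀ v, (∀ i, ∀ s ∈ S.D v, del i s = 0) → S.loc v Th ∈ S.CP v)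
    (hunr : ∀ v ∈ S.good, Th (S.sg v) = 0) :
    {v | S.sy v (S.loc v Th) (S.loc v (bet i)) ≠ 0}.Finite ∧
    ∑ᶠ v, S.sy v (S.loc v Th) (S.loc v (bet i)) =
      S.e (Th (S.phi (pl i false))) (bet i (S.sg (pl i false))) +
      S.e (Th (S.phi (pl i true))) (bet i (S.sg (pl i true))) := by
  classical
  have hval : ∀ v, S.sy v (S.loc v Th) (S.loc v (bet i)) =
      if v = pl i false ∨ v = pl i true then S.e (Th (S.phi v)) (bet i (S.sg v)) else 0 := by
    intro v
    by_cases hv : v = pl i false ∨ v = pl i true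
    · rw [if_pos hv]
      obtain ⟨e, rfl⟩ : ∃ e, v = pl i e := by
        rcases hv with h | h
        · exact ⟨false, h⟩
        · exact ⟨true, h⟩
      have hg := hC.good i e
      have h1 : Th (S.sg (pl i e)) = 0 := hunr _ hg
      rw [hS.sy_split _ hg (hC.split i e)]
      simp only [Sys.loc, h1]
      simp
    · rw [if_neg hv]
      push Not at hv
      by_cases hex : ∃ m e, v = pl m e
      · obtain ⟨m, e, rfl⟩ := hex
        have hi : i ≠ m := by
          rintro rfl
          cases e
          · exact hv.1 rfl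
          · exact hv.2 rfl
        have : S.loc (pl m e) (bet i) = 0 :=
          Prod.ext (hB.D m e i hi _ (hS.sg_mem _)) (hB.D m e i hi _ (hS.phi_mem _))
        rw [this, Sys.sy_zero_right]
      · push Not at hex
        rcases hB.other v hex with ⟨h, hz⟩ | ⟨h1, _, _, h4⟩
        · obtain ⟨z, hz⟩ := hz i
          have : S.loc v (bet i) = S.cob v z :=
            Prod.ext (hz _ (hS.sg_mem v)) (hz _ (hS.phi_mem v))
          rw [this]
          exact hS.sy_cob v _ (hcp v h) z
        · exact Sys.sy_unr_zero hS h1 (hunr v h1) (h4 i)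
  have hsupp : {v | S.sy v (S.loc v Th) (S.loc v (bet i)) ≠ 0} ⊆
      (({pl i false, pl i true} : Finset Pl) : Set Pl) := by
    intro v hv
    by_contra hn
    apply hv
    rw [hval v, if_neg]
    intro h
    apply hn
    simpa using h
  refine ⟨(Finset.finite_toSet _).subset hsupp, ?_⟩
  rw [finsum_eq_sum_of_support_subset _ hsupp,
    Finset.sum_pair (hC.ne i), hval, hval, if_pos (Or.inl rfl), if_pos (Or.inr rfl)]

/-- H4: the top sum theorem; `B` = the set of the directions in which the right family moves. -/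
theorem top_sum [Fintype I] (hS : S.Ok) {pl : I → Bool → Pl} (hC : CubeOk S ex chi0 del pl)
    (hst : Star S univ j Psi) (hPsi : ∀ X, S.IsSel (chiC chi0 del X) j (Psi X))
    (hI : Fintype.card I = j + 2) {bet : I → G → V1} (hB : BetOk S chi0 del pl bet)
    (b0 : G → V1)
    (hb : ∀ X, S.IsSel1 (chiC chi0 del X) (bC b0 bet X)) (B : Finset I)
    (hw : ∀ i, i ∉ B → ∀ s, bet i s = 0) {Th : I → G → V1} (htf : ∀ i ∈ B, S.TF (Th i))
    (hrel : ∀ i ∈ B, ThRel S j del Psi (univ.erase i) (Th i))
    (hunr : ∀ i ∈ B, ∀ v ∈ S.good, Th i (S.sg v) = 0) :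
    alt univ (fun X => S.CT (chiC chi0 del X) (Psi X) (bC b0 bet X)) ∅ =
      -∑ i ∈ B, (S.e (Th i (S.phi (pl i false))) (bet i (S.sg (pl i false))) +
        S.e (Th i (S.phi (pl i true))) (bet i (S.sg (pl i true)))) := by
  classical
  obtain ⟨hat, Q, hd⟩ := exists_family (W := univ) hS hC.chi0_hom hC.del_hom
    (fun X _ => hPsi X)
  rw [face_sum hS hC hst hd (U := univ) (P := ∅)
    (Finset.Subset.refl _) (Finset.empty_subset _) (Finset.disjoint_empty_right _)
    (by rw [Finset.card_univ]; omega) hB b0 (fun X _ => hb X)]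
  simp only [Finset.empty_union]
  have hG : S.CocG (GC S hat univ ∅) := GC_hom hS hst hd (Finset.Subset.refl _)
    (Finset.empty_subset _) (Finset.disjoint_empty_right _) (by rw [Finset.card_univ]; omega)
  have hbU := (hb univ).1
  -- the cocycles `om`
  have hWc : ∀ i : I, (univ.erase i : Finset I).card = j + 1 := fun i => by
    rw [Finset.card_erase_of_mem (Finset.mem_univ i), Finset.card_univ]; omega
  have hrel' : ∀ i, ThRel S j del Psi (univ.erase i) (GC S hat (univ.erase i) ∅) := fun i =>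
    om_rel hS (hWc i) (hst.mono (Finset.erase_subset _ _))
      (fun T _ => (hd T (Finset.subset_univ T)).coc)
      (fun T _ => (hd T (Finset.subset_univ T)).two)
  have hom : ∀ i ∈ B, S.CocG (fun s => GC S hat (univ.erase i) ∅ s - Th i s) := fun i hi =>
    ⟨(GC_tf hS hd (Finset.erase_subset _ _) (Finset.empty_subset _)).comp₂ hS (htf i hi)
      (fun a b => a - b), fun s t => (hrel' i).sub_coc (hrel i hi) s t⟩
  -- the local terms
  have hterm : ∀ v, S.sy v (S.loc v (GC S hat univ ∅)) (S.loc v (bC b0 bet univ)) -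
      ∑ i, S.sy v (S.loc v (GC S hat (univ.erase i) ∅)) (S.loc v (bet i)) =
      S.sy v (S.loc v (GC S hat univ ∅)) (S.loc v (bC b0 bet univ)) -
      ∑ i ∈ B, (S.sy v (S.loc v (fun s => GC S hat (univ.erase i) ∅ s - Th i s))
        (S.loc v (bet i)) + S.sy v (S.loc v (Th i)) (S.loc v (bet i))) := by
    intro v
    congr 1
    symm
    refine (Finset.sum_congr rfl fun i _ => ?_).trans
      (Finset.sum_subset (Finset.subset_univ B) (f := fun i =>
        S.sy v (S.loc v (GC S hat (univ.erase i) ∅)) (S.loc v (bet i))) fun i _ hi => ?_)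
    · rw [← Sys.sy_add_left]
      congr 2
      apply Prod.ext
      · change GC S hat (univ.erase i) ∅ _ - Th i _ + Th i _ = _
        rw [sub_add_cancel]; rfl
      · change GC S hat (univ.erase i) ∅ _ - Th i _ + Th i _ = _
        rw [sub_add_cancel]; rfl
    · have : S.loc v (bet i) = 0 := Prod.ext (hw i hi _) (hw i hi _)
      change S.sy v _ (S.loc v (bet i)) = 0
      rw [this, Sys.sy_zero_right]
  rw [finsum_congr hterm]
  have hTh : ∀ i ∈ B, _ := fun i hi => sum_Th hS hC hB i
    (fun v h => (hrel i hi).cp (htf i hi) h) (hunr i hi)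
  have hf1 := Sys.sy_supp hS hG hbU
  have hf2 : ∀ i ∈ B, {v | S.sy v (S.loc v (fun s => GC S hat (univ.erase i) ∅ s - Th i s))
      (S.loc v (bet i)) ≠ 0}.Finite := fun i hi => Sys.sy_supp hS (hom i hi) (hB.coc i)
  have hf3 : ∀ i ∈ B, {v | S.sy v (S.loc v (fun s => GC S hat (univ.erase i) ∅ s - Th i s))
      (S.loc v (bet i)) + S.sy v (S.loc v (Th i)) (S.loc v (bet i)) ≠ 0}.Finite := by
    intro i hi
    refine ((hf2 i hi).union (hTh i hi).1).subset ?_
    intro v hv
    by_contra hn
    rw [Set.mem_union, not_or] at hn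
    apply hv
    rw [not_not.1 hn.1, not_not.1 hn.2, add_zero]
  have hf4 : {v | ∑ i ∈ B, (S.sy v (S.loc v (fun s => GC S hat (univ.erase i) ∅ s - Th i s))
      (S.loc v (bet i)) + S.sy v (S.loc v (Th i)) (S.loc v (bet i))) ≠ 0}.Finite := by
    refine (Set.Finite.biUnion (Finset.finite_toSet B) hf3).subset ?_
    intro v hv
    by_contra hn
    apply hv
    apply Finset.sum_eq_zero
    intro i hi
    by_contra h
    exact hn (Set.mem_biUnion (Finset.mem_coe.2 hi) h)
  rw [finsum_sub_distrib hf1 hf4, hS.recip _ _ hG hbU, zero_sub, finsum_sum_comm B _ hf3]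
  congr 1
  refine Finset.sum_congr rfl fun i hi => ?_
  rw [finsum_add_distrib (hf2 i hi) (hTh i hi).1, hS.recip _ _ (hom i hi) (hB.coc i), zero_add,
    (hTh i hi).2]

end

end Pool.Agent.SmL
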